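import Pool.Agent.WittR.Defs

/-!
# The Witt ring of a group extension is the group ring

PROOF. `Φ : WS S.ext → (WS S)[C₂]` is `WS.lift` of `(a, i) ↦ single i (cl a)`. Relations: `Bin` in
`S.ext` for `(a,i), (b,j), (c,k), (d,l)`: (1) `i = j = k = l` and `Bin S a b c d`; (2) `i = j`,
`neg a b = 1`: then `i = j`, `k = l`, `⟨a, b⟩ = ⟨a, neg a⟩` and `⟨c, d⟩ = ⟨c, neg c⟩`, both sides are
zero; (3) `(c, k) = (a, i)` and `(d, l) = (b, j)`; (4) `i ≠ j`, `i ≠ k`, `c = b`, `k = j`, so
`(d, l) = (a, i)`.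
`Ψ : (WS S)[C₂] → WS S.ext` is `MonoidAlgebra.liftNCRingHom` of `WS.lift (a ↦ cl (a, 1))` and
`i ↦ cl (1, i)`. They are inverse to each other on generators (`WS.hom_ext`,
`MonoidAlgebra.ringHom_ext`).
-/

namespace Pool.Agent.WittR

open Pool.Agent.Hhelper2

universe u v

namespace AbsExt

/-- the cyclic group of order two -/
abbrev C2 : Type := Multiplicative (ZMod 2)

lemma c2_1 : ∀ i j : C2, i * j = 1 → j = i := by decide

lemma c2_2 : ∀ i j k : C2, i * j ≠ 1 → i * k ≠ 1 → k = j := by decide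

lemma c2_3 : ∀ i j k l : C2, i * j = k * l → i * k = 1 → k = i ∧ l = j := by decide

lemma c2_4 : ∀ i j k l : C2, i * j = k * l → k = j → l = i := by decide

variable {S : QStr.{u}}

lemma inv_eq (hS : LAx S) (a : S.G) : a⁻¹ = a := inv_eq_of_mul_eq_one_left (hS.sq a)

lemma cl_add_neg_mul (a : S.G) : cl S a + cl S (S.neg * a) = 0 := by
  have h := congrArg (fun x => cl S a * x) (cl_add_neg (S := S))
  simp only [mul_add, mul_zero, ← map_mul, mul_one] at h
  rw [mul_comm a S.neg] at h
  exact h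

section generic

variable {R : Type v} [CommRing R] (ι : WS S →+* R) (h : C2 →* R)

/-- the map on generators -/
noncomputable def f0 : S.ext.G →* R where
  toFun x := ι (cl S x.1) * h x.2
  map_one' := by
    show ι (cl S 1) * h 1 = 1
    rw [map_one, map_one, map_one, one_mul]
  map_mul' x y := by
    show ι (cl S (x.1 * y.1)) * h (x.2 * y.2) = _
    rw [map_mul, map_mul, map_mul]; ring

lemma f0_apply (x : S.ext.G) : f0 ι h x = ι (cl S x.1) * h x.2 := rfl

lemma f0_neg : f0 ι h 1 + f0 ι h S.ext.neg = 0 := by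
  show ι (cl S 1) * h 1 + ι (cl S S.neg) * h 1 = 0
  rw [← add_mul, ← map_add, cl_add_neg, map_zero, zero_mul]

lemma f0_bin (hS : LAx S) (x y z w : S.ext.G) (hb : Bin S.ext x y z w) :
    f0 ι h x + f0 ι h y = f0 ι h z + f0 ι h w := by
  obtain ⟨a, i⟩ := x
  obtain ⟨b, j⟩ := y
  obtain ⟨c, k⟩ := z
  obtain ⟨d, l⟩ := w
  obtain ⟨h1, h2⟩ := hb
  have h1a : a * b = c * d := congrArg Prod.fst h1
  have h1b : i * j = k * l := congrArg Prod.snd h1
  simp only [f0_apply]
  rcases h2 with ⟨h3, h4, h5⟩ | h3 | h3 | ⟨h3, h4, h5⟩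
  · -- all exponents are equal
    have h3' : i * j = 1 := by
      have : (1 : C2) * (i * j) = 1 := h3
      rwa [one_mul] at this
    have h4' : i * k = 1 := h4
    have hj := c2_1 i j h3'
    have hk := (c2_3 i j k l h1b h4').1
    have hl := (c2_3 i j k l h1b h4').2
    have h6 : Bin S a b c d := ⟨h1a, h5⟩
    have h7 := cl_bin h6
    rw [hl, hk, hj, ← add_mul, ← add_mul, ← map_add ι, ← map_add ι, h7]
  · -- both sides are zero
    have h3a : S.neg * (a * b) = 1 := congrArg Prod.fst h3
    have h3b : i * j = 1 := by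
      have : (1 : C2) * (i * j) = 1 := congrArg Prod.snd h3
      rwa [one_mul] at this
    have hj := c2_1 i j h3b
    have hl := c2_1 k l (by rw [← h1b]; exact h3b)
    have e : ∀ p q : S.G, S.neg * (p * q) = 1 → q = S.neg * p := by
      intro p q hpq
      have h8 : S.neg * p * q = 1 := by rw [mul_assoc]; exact hpq
      rw [← inv_eq hS (S.neg * p)]
      exact eq_inv_of_mul_eq_one_right h8
    have hb := e a b h3a
    have hd := e c d (by rw [← h1a]; exact h3a)
    rw [hj, hl, hb, hd, ← add_mul, ← add_mul, ← map_add ι, ← map_add ι, cl_add_neg_mul,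
      cl_add_neg_mul, map_zero, zero_mul, zero_mul]
  · -- equal terms
    have h3a : a * c = 1 := congrArg Prod.fst h3
    have h3b : i * k = 1 := congrArg Prod.snd h3
    have hk := c2_3 i j k l h1b h3b
    have hc : c = a := by
      rw [← inv_eq hS a]
      exact eq_inv_of_mul_eq_one_right h3a
    have hd : d = b := by
      rw [hc] at h1a
      exact (mul_left_cancel h1a).symm
    rw [hk.1, hk.2, hc, hd]
  · -- exchanged terms
    have h3' : i * j ≠ 1 := by
      intro h0
      apply h3
      show (1 : C2) * (i * j) = 1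
      rw [one_mul]; exact h0
    have h4' : i * k ≠ 1 := h4
    have hk := c2_2 i j k h3' h4'
    have hl := c2_4 i j k l h1b hk
    have h5' : a * c = S.neg * (S.neg * (a * b)) := h5
    have hc : c = b := by
      rw [← mul_assoc, hS.sq, one_mul] at h5'
      exact mul_left_cancel h5'
    have hd : d = a := by
      rw [hc, mul_comm a b] at h1a
      exact (mul_left_cancel h1a).symm
    rw [hk, hl, hc, hd, add_comm]

/-- the map to the group ring -/
noncomputable def Phi (hS : LAx S) : WS S.ext →+* R :=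
  WS.lift (f0 ι h) (f0_neg ι h) (f0_bin ι h hS)

lemma Phi_cl (hS : LAx S) (x : S.ext.G) :
    Phi ι h hS (cl S.ext x) = ι (cl S x.1) * h x.2 :=
  WS.lift_cl _ _ _ x

end generic

/-- the inclusion on generators -/
noncomputable def g0 (S : QStr.{u}) : S.G →* WS S.ext where
  toFun a := cl S.ext (a, 1)
  map_one' := map_one (cl S.ext)
  map_mul' a b := by
    rw [← map_mul]
    congr 1

lemma g0_neg (S : QStr.{u}) : g0 S 1 + g0 S S.neg = 0 := cl_add_neg (S := S.ext)

lemma g0_bin (S : QStr.{u}) (a b c d : S.G) (h : Bin S a b c d) :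
    g0 S a + g0 S b = g0 S c + g0 S d := by
  apply cl_bin (S := S.ext)
  refine ⟨?_, Or.inl ⟨rfl, rfl, h.2⟩⟩
  show ((a * b, (1 : C2) * 1) : S.G × C2) = (c * d, (1 : C2) * 1)
  rw [h.1]

/-- the inclusion of the Witt ring -/
noncomputable def gg (S : QStr.{u}) : WS S →+* WS S.ext := WS.lift (g0 S) (g0_neg S) (g0_bin S)

lemma gg_cl (a : S.G) : gg S (cl S a) = cl S.ext (a, 1) := WS.lift_cl _ _ _ a

/-- the group elements -/
noncomputable def hh (S : QStr.{u}) : C2 →* WS S.ext where
  toFun i := cl S.ext (1, i)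
  map_one' := map_one (cl S.ext)
  map_mul' i j := by
    rw [← map_mul]
    congr 1
    show ((1, i * j) : S.G × C2) = (1 * 1, i * j)
    rw [mul_one]

lemma hh_apply (i : C2) : hh S i = cl S.ext (1, i) := rfl

theorem core (hS : LAx S) {R : Type v} [CommRing R] (ι : WS S →+* R) (h : C2 →* R)
    (Psi : R →+* WS S.ext) (hΨι : ∀ r, Psi (ι r) = gg S r) (hΨh : ∀ i, Psi (h i) = hh S i)
    (hext : ∀ f : R →+* R, (∀ r, f (ι r) = ι r) → (∀ i, f (h i) = h i) → ∀ x, f x = x)
    (E : R →+* ZMod 2) (hE : ∀ r, E (ι r) = eW S r) (hEh : ∀ i, E (h i) = 1) :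
    PairIso (eW S.ext) E := by
  refine ⟨RingEquiv.ofRingHom (Phi ι h hS) Psi ?_ ?_, ?_⟩
  · apply RingHom.ext
    apply hext ((Phi ι h hS).comp Psi)
    · intro r
      have h1 : (Phi ι h hS).comp (gg S) = ι := by
        apply WS.hom_ext
        intro a
        rw [RingHom.comp_apply, gg_cl, Phi_cl]
        show ι (cl S a) * h 1 = ι (cl S a)
        rw [map_one, mul_one]
      rw [RingHom.comp_apply, hΨι]
      exact RingHom.congr_fun h1 r
    · intro i
      rw [RingHom.comp_apply, hΨh, hh_apply, Phi_cl]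
      show ι (cl S 1) * h i = h i
      rw [map_one, map_one, one_mul]
  · apply WS.hom_ext
    rintro ⟨a, i⟩
    rw [RingHom.comp_apply, Phi_cl, map_mul, hΨι, hΨh, gg_cl, hh_apply, ← map_mul,
      RingHom.id_apply]
    congr 1
    show ((a * 1, (1 : C2) * i) : S.G × C2) = (a, i)
    rw [mul_one, one_mul]
  · intro x
    have h1 : E.comp (Phi ι h hS) = eW S.ext := by
      apply WS.hom_ext
      rintro ⟨a, i⟩
      rw [RingHom.comp_apply, Phi_cl, map_mul, hE, hEh, eW_cl, eW_cl, mul_one]
    exact RingHom.congr_fun h1 x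

end AbsExt

open AbsExt in
theorem extIso {S : QStr.{u}} (hS : LAx S) : PairIso (eW S.ext) (extE (eW S)) := by
  refine core hS (R := MonoidAlgebra (WS S) C2) MonoidAlgebra.singleOneRingHom
    (MonoidAlgebra.of (WS S) C2)
    (MonoidAlgebra.liftNCRingHom (gg S) (hh S) (fun _ _ => Commute.all _ _)) ?_ ?_ ?_ _ ?_ ?_
  · intro r
    have h := MonoidAlgebra.liftNCRingHom_single (gg S) (hh S) (fun _ _ => Commute.all _ _) 1 r
    rw [map_one, mul_one] at h
    exact h
  · intro i
    have h := MonoidAlgebra.liftNCRingHom_single (gg S) (hh S) (fun _ _ => Commute.all _ _) i 1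
    rw [map_one, one_mul] at h
    exact h
  · intro f h1 h2 x
    have h3 : f = RingHom.id _ := MonoidAlgebra.ringHom_ext h1 h2
    rw [h3]; rfl
  · intro r
    have h := MonoidAlgebra.liftNCRingHom_single (eW S) (1 : C2 →* ZMod 2)
      (fun _ _ => Commute.all _ _) 1 r
    rw [map_one, mul_one] at h
    exact h
  · intro i
    have h := MonoidAlgebra.liftNCRingHom_single (eW S) (1 : C2 →* ZMod 2)
      (fun _ _ => Commute.all _ _) i 1
    rw [map_one, one_mul, MonoidHom.one_apply] at h
    exact h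

/-- Isomorphic structures have isomorphic Witt rings. -/
theorem isoIso {S : QStr.{u}} {T : QStr.{v}} (f : S.Iso T) : PairIso (eW S) (eW T) := by
  have hb : ∀ (a b c d : S.G), Bin S a b c d →
      Bin T (f.e a) (f.e b) (f.e c) (f.e d) := by
    intro a b c d h
    refine ⟨?_, ?_⟩
    · rw [← map_mul, ← map_mul, h.1]
    · have h2 := (f.map_split _ _).1 h.2
      rw [map_mul, map_mul, map_mul, f.map_neg] at h2
      exact h2
  have hb' : ∀ (a b c d : T.G), Bin T a b c d →
      Bin S (f.symm.e a) (f.symm.e b) (f.symm.e c) (f.symm.e d) := by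
    intro a b c d h
    refine ⟨?_, ?_⟩
    · rw [← map_mul, ← map_mul, h.1]
    · have h2 := (f.symm.map_split _ _).1 h.2
      rw [map_mul, map_mul, map_mul, f.symm.map_neg] at h2
      exact h2
  let F : WS S →+* WS T := WS.lift ((cl T).comp f.e.toMonoidHom)
    (by
      show cl T (f.e 1) + cl T (f.e S.neg) = 0
      rw [map_one f.e, f.map_neg]
      exact cl_add_neg)
    (fun a b c d h => cl_bin (hb a b c d h))
  let G : WS T →+* WS S := WS.lift ((cl S).comp f.symm.e.toMonoidHom)
    (by
      show cl S (f.symm.e 1) + cl S (f.symm.e T.neg) = 0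
      rw [map_one f.symm.e, f.symm.map_neg]
      exact cl_add_neg)
    (fun a b c d h => cl_bin (hb' a b c d h))
  have hF : ∀ a, F (cl S a) = cl T (f.e a) := fun a => WS.lift_cl _ _ _ a
  have hG : ∀ a, G (cl T a) = cl S (f.e.symm a) := fun a => WS.lift_cl _ _ _ a
  refine ⟨RingEquiv.ofRingHom F G ?_ ?_, ?_⟩
  · apply WS.hom_ext
    intro a
    rw [RingHom.comp_apply, hG, hF, MulEquiv.apply_symm_apply]
    rfl
  · apply WS.hom_ext
    intro a
    rw [RingHom.comp_apply, hF, hG, MulEquiv.symm_apply_apply]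
    rfl
  · intro x
    have h : (eW T).comp F = eW S := by
      apply WS.hom_ext
      intro a
      rw [RingHom.comp_apply, hF, eW_cl, eW_cl]
    exact RingHom.congr_fun h x

end Pool.Agent.WittR
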