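import Pool.Agent.WittR.Defs

/-!
# The Witt ring of a product is the fibre product of the Witt rings

PROOF. `Φ : WS (S × T) → WS S × WS T` is `WS.lift` of `(a, b) ↦ (cl a, cl b)` (`Bin` of a product is
`Bin` in both components); it lands in `fib`. Write `A = WS (S × T)`, `[x] = cl x ∈ A`.
(0) in `A`: `[(a, b)] + [(1, 1)] = [(a, 1)] + [(1, b)]` (`Bin S a 1 a 1` and `Bin T b 1 1 b`), and
    `[x] + [neg x] = 0`.
(1) `ψ_S : ℤ[G_S] → A` additive, `[a] ↦ [(a, 1)]`, `h_S := [(1,1)] + [(neg,1)]`.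
    For all `x ∈ J(S)` there is `m : ℤ` with `ψ_S x = m • h_S` and `(sum of the coefficients of x) =
    2 m`. (The set of such `x` is closed under addition and under multiplication by `[g]`:
    `[(g,1)] + [(neg g,1)] = h_S` by `Bin S g (neg g) 1 neg` and `Bin T 1 1 1 1`; it contains the
    generators: for `Bin S a b c d`, `[(a,1)] + [(b,1)] = [(c,1)] + [(d,1)]`, `m = 0`.)
    The same for `T`.
(2) INJECTIVE: let `x ∈ ℤ[G_S × G_T]` with images `x₁ ∈ J(S)`, `x₂ ∈ J(T)`. By (0), modulo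
    `J(S × T)`: `x = ψ_S x₁ + ψ_T x₂ - dim x • [(1,1)] = m h_S + n h_T - dim x • [(1,1)]`, with
    `dim x = dim x₁ = dim x₂ = 2 m = 2 n`, so `x = m • (h_S + h_T - 2 [(1,1)])
    = m • ([(neg,1)] + [(1,neg)]) = m • ([(neg,neg)] + [(1,1)]) = 0`.
(3) SURJECTIVE onto `fib`: lift `(x, y)` to `X ∈ ℤ[G_S]`, `Y ∈ ℤ[G_T]`, `dim X - dim Y = 2 m`; then
    `ψ_S X + ψ_T Y - dim Y • [(1,1)] - m • ([(1,1)] + [(neg,1)])` maps to `(x, y)`.
-/

namespace Pool.Agent.WittR

open Pool.Agent.Hhelper2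

universe u v

namespace PI

section

variable {S : QStr.{u}} {T : QStr.{v}}

/-- induction on the integral group ring -/
theorem mind {G : Type u} [CommGroup G] {p : MonoidAlgebra ℤ G → Prop}
    (h1 : ∀ a, p (MonoidAlgebra.of ℤ G a)) (h2 : ∀ x y, p x → p y → p (x + y))
    (h3 : ∀ (n : ℤ) x, p x → p (n • x)) (x : MonoidAlgebra ℤ G) : p x := by
  induction x using MonoidAlgebra.induction_on with
  | of a => exact h1 a
  | add x y hx hy => exact h2 _ _ hx hy
  | smul n x hx => exact h3 n x hx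

/-- the ring homomorphism of the group ring induced by a character -/
noncomputable def lf {G : Type u} [CommGroup G] {R : Type v} [CommRing R] (f : G →* R) :
    MonoidAlgebra ℤ G →+* R := (MonoidAlgebra.lift ℤ R G f).toRingHom

theorem lf_of {G : Type u} [CommGroup G] {R : Type v} [CommRing R] (f : G →* R) (a : G) :
    lf f (MonoidAlgebra.of ℤ G a) = f a := MonoidAlgebra.lift_of _ _

/-- dimension -/
noncomputable def dm (G : Type u) [CommGroup G] : MonoidAlgebra ℤ G →+* ℤ := lf 1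

theorem dm_of (G : Type u) [CommGroup G] (a : G) : dm G (MonoidAlgebra.of ℤ G a) = 1 := lf_of _ a

/-- the inclusions and projections -/
def inlH (S : QStr.{u}) (T : QStr.{v}) : S.G →* (S.prod T).G := MonoidHom.inl S.G T.G
def inrH (S : QStr.{u}) (T : QStr.{v}) : T.G →* (S.prod T).G := MonoidHom.inr S.G T.G
def fstH (S : QStr.{u}) (T : QStr.{v}) : (S.prod T).G →* S.G := MonoidHom.fst S.G T.G
def sndH (S : QStr.{u}) (T : QStr.{v}) : (S.prod T).G →* T.G := MonoidHom.snd S.G T.G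

theorem bin_prod {a b c d : S.G} {a' b' c' d' : T.G} (h : Bin S a b c d) (h' : Bin T a' b' c' d') :
    Bin (S.prod T) (a, a') (b, b') (c, c') (d, d') :=
  ⟨Prod.ext h.1 h'.1, h.2, h'.2⟩

theorem bin_fst {x y z w : (S.prod T).G} (h : Bin (S.prod T) x y z w) :
    Bin S (fstH S T x) (fstH S T y) (fstH S T z) (fstH S T w) :=
  ⟨congrArg Prod.fst h.1, h.2.1⟩

theorem bin_snd {x y z w : (S.prod T).G} (h : Bin (S.prod T) x y z w) :
    Bin T (sndH S T x) (sndH S T y) (sndH S T z) (sndH S T w) :=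
  ⟨congrArg Prod.snd h.1, h.2.2⟩

theorem bin1 (hS : LAx S) (a : S.G) : Bin S a 1 a 1 :=
  ⟨rfl, by rw [hS.sq a]; exact hS.one _⟩

theorem bin2 (hS : LAx S) (a : S.G) : Bin S a 1 1 a :=
  ⟨mul_comm _ _, by rw [mul_one]; exact hS.symm _ _ (hS.neg a)⟩

theorem bin3 (hS : LAx S) (g : S.G) : Bin S g (S.neg * g) 1 S.neg := by
  have h : g * (S.neg * g) = S.neg := by rw [mul_left_comm, hS.sq g, mul_one]
  refine ⟨by rw [h, one_mul], ?_⟩
  rw [h, hS.sq, mul_one]
  exact hS.symm _ _ (hS.one g)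

/-- relation (0) -/
theorem rel0 (hS : LAx S) (hT : LAx T) (x : (S.prod T).G) :
    cl (S.prod T) x + 1 = cl (S.prod T) (inlH S T (fstH S T x)) +
      cl (S.prod T) (inrH S T (sndH S T x)) := by
  rw [← map_one (cl (S.prod T))]
  obtain ⟨a, b⟩ := x
  exact cl_bin (bin_prod (bin1 hS a) (bin2 hT b))

/-- the hyperbolic planes -/
noncomputable def hl (S : QStr.{u}) (T : QStr.{v}) : WS (S.prod T) :=
  1 + cl (S.prod T) (inlH S T S.neg)
noncomputable def hr (S : QStr.{u}) (T : QStr.{v}) : WS (S.prod T) :=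
  1 + cl (S.prod T) (inrH S T T.neg)

theorem hsum (hS : LAx S) (hT : LAx T) : hl S T + hr S T - 2 = 0 := by
  have h1 := rel0 hS hT (S.prod T).neg
  have h2 := cl_add_neg (S := S.prod T)
  rw [map_one] at h2
  unfold hl hr
  have h3 : cl (S.prod T) (inlH S T (fstH S T (S.prod T).neg)) =
      cl (S.prod T) (inlH S T S.neg) := rfl
  have h4 : cl (S.prod T) (inrH S T (sndH S T (S.prod T).neg)) =
      cl (S.prod T) (inrH S T T.neg) := rfl
  rw [h3, h4] at h1
  linear_combination (-1 : WS (S.prod T)) * h1 + h2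

theorem hl_mul (hS : LAx S) (hT : LAx T) (g : S.G) :
    cl (S.prod T) (inlH S T g) * hl S T = hl S T := by
  unfold hl
  rw [mul_add, mul_one, ← map_mul, ← map_mul]
  have h := cl_bin (bin_prod (bin3 hS g) (bin1 hT 1))
  have h1 : cl (S.prod T) ((1 : S.G), (1 : T.G)) = 1 := map_one (cl (S.prod T))
  rw [h1] at h
  rw [mul_comm g S.neg]
  exact h

theorem hr_mul (hS : LAx S) (hT : LAx T) (g : T.G) :
    cl (S.prod T) (inrH S T g) * hr S T = hr S T := by
  unfold hr
  rw [mul_add, mul_one, ← map_mul, ← map_mul]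
  have h := cl_bin (bin_prod (bin1 hS 1) (bin3 hT g))
  have h1 : cl (S.prod T) ((1 : S.G), (1 : T.G)) = 1 := map_one (cl (S.prod T))
  rw [h1] at h
  rw [mul_comm g T.neg]
  exact h

/-- `ψ_S` and `ψ_T` -/
noncomputable def pl (S : QStr.{u}) (T : QStr.{v}) : MonoidAlgebra ℤ S.G →+* WS (S.prod T) :=
  lf ((cl (S.prod T)).comp (inlH S T))
noncomputable def pr (S : QStr.{u}) (T : QStr.{v}) : MonoidAlgebra ℤ T.G →+* WS (S.prod T) :=
  lf ((cl (S.prod T)).comp (inrH S T))

theorem gen_mul {G : Type u} [CommGroup G] {R : Type v} [CommRing R] (f : G →* R) (h : R)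
    (hf : ∀ g, f g * h = h) (x : MonoidAlgebra ℤ G) : lf f x * h = dm G x • h := by
  induction x using mind with
  | h1 a => rw [lf_of, dm_of, hf, one_smul]
  | h2 x y hx hy => rw [map_add, map_add, add_mul, hx, hy, add_smul]
  | h3 n x hx => rw [map_zsmul, map_zsmul, smul_mul_assoc, hx, smul_assoc]

/-- step (1) -/
theorem gen_J {S : QStr.{u}} {R : Type v} [CommRing R] (f : S.G →* R)
    (hf : ∀ g, f g * (1 + f S.neg) = 1 + f S.neg)
    (hb : ∀ a b c d, Bin S a b c d → f a + f b = f c + f d) (x : MonoidAlgebra ℤ S.G)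
    (hx : x ∈ JI S) : ∃ m : ℤ, lf f x = m • (1 + f S.neg) ∧ dm S.G x = 2 * m := by
  rw [JI] at hx
  induction hx using Submodule.span_induction with
  | mem x hx =>
    rcases hx with rfl | ⟨a, b, c, d, h, rfl⟩
    · refine ⟨1, ?_, ?_⟩
      · rw [map_add, gof, gof, lf_of, lf_of, map_one, one_smul]
      · rw [map_add, gof, gof, dm_of, dm_of]
        norm_num
    · refine ⟨0, ?_, ?_⟩
      · rw [map_sub, map_sub, map_add, gof, gof, gof, gof, lf_of, lf_of, lf_of, lf_of,
          hb a b c d h, zero_smul]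
        ring
      · rw [map_sub, map_sub, map_add, gof, gof, gof, gof, dm_of, dm_of, dm_of, dm_of]
        norm_num
  | zero => exact ⟨0, by rw [map_zero, zero_smul], by rw [map_zero]; norm_num⟩
  | add x y _ _ hx hy =>
    obtain ⟨m, h1, h2⟩ := hx
    obtain ⟨n, h3, h4⟩ := hy
    exact ⟨m + n, by rw [map_add, h1, h3, add_smul], by rw [map_add, h2, h4]; ring⟩
  | smul r x _ hx =>
    obtain ⟨m, h1, h2⟩ := hx
    refine ⟨m * dm S.G r, ?_, ?_⟩
    · rw [smul_eq_mul, map_mul, h1, mul_smul_comm, gen_mul f _ hf, smul_smul]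
    · rw [smul_eq_mul, map_mul, h2]
      ring

/-- the map to the product -/
noncomputable def Ph (S : QStr.{u}) (T : QStr.{v}) : WS (S.prod T) →+* WS S × WS T :=
  WS.lift (((cl S).comp (fstH S T)).prod ((cl T).comp (sndH S T)))
    (by
      have h1 := cl_add_neg (S := S)
      have h2 := cl_add_neg (S := T)
      rw [map_one] at h1 h2
      rw [map_one]
      exact Prod.ext h1 h2)
    (fun _ _ _ _ h => Prod.ext (cl_bin (bin_fst h)) (cl_bin (bin_snd h)))

theorem Ph_cl (x : (S.prod T).G) :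
    Ph S T (cl (S.prod T) x) = (cl S (fstH S T x), cl T (sndH S T x)) := WS.lift_cl _ _ _ x

theorem mk_of (a : S.G) : Ideal.Quotient.mk (JI S) (MonoidAlgebra.of ℤ S.G a) = cl S a := rfl

/-- images of an element of the group ring -/
noncomputable def ql (S : QStr.{u}) (T : QStr.{v}) :
    MonoidAlgebra ℤ (S.prod T).G →+* MonoidAlgebra ℤ S.G :=
  lf ((MonoidAlgebra.of ℤ S.G).comp (fstH S T))
noncomputable def qr (S : QStr.{u}) (T : QStr.{v}) :
    MonoidAlgebra ℤ (S.prod T).G →+* MonoidAlgebra ℤ T.G :=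
  lf ((MonoidAlgebra.of ℤ T.G).comp (sndH S T))

theorem Ph_mk (x : MonoidAlgebra ℤ (S.prod T).G) :
    Ph S T (Ideal.Quotient.mk (JI (S.prod T)) x) =
      (Ideal.Quotient.mk (JI S) (ql S T x), Ideal.Quotient.mk (JI T) (qr S T x)) := by
  induction x using mind with
  | h1 a =>
    rw [mk_of, Ph_cl]
    unfold ql qr
    rw [lf_of, lf_of]
    rfl
  | h2 x y hx hy =>
    simp only [map_add]
    rw [hx, hy]
    rfl
  | h3 n x hx =>
    simp only [map_zsmul]
    rw [hx]
    rfl

theorem dm_ql (x : MonoidAlgebra ℤ (S.prod T).G) : dm S.G (ql S T x) = dm (S.prod T).G x := by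
  induction x using mind with
  | h1 a =>
    unfold ql
    rw [lf_of, dm_of, MonoidHom.comp_apply, dm_of]
  | h2 x y hx hy => rw [map_add, map_add, map_add, hx, hy]
  | h3 n x hx => rw [map_zsmul, map_zsmul, map_zsmul, hx]

theorem dm_qr (x : MonoidAlgebra ℤ (S.prod T).G) : dm T.G (qr S T x) = dm (S.prod T).G x := by
  induction x using mind with
  | h1 a =>
    unfold qr
    rw [lf_of, dm_of, MonoidHom.comp_apply, dm_of]
  | h2 x y hx hy => rw [map_add, map_add, map_add, hx, hy]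
  | h3 n x hx => rw [map_zsmul, map_zsmul, map_zsmul, hx]

/-- step (0) -/
theorem mk_eq (hS : LAx S) (hT : LAx T) (x : MonoidAlgebra ℤ (S.prod T).G) :
    Ideal.Quotient.mk (JI (S.prod T)) x =
      pl S T (ql S T x) + pr S T (qr S T x) - dm (S.prod T).G x • (1 : WS (S.prod T)) := by
  induction x using mind with
  | h1 a =>
    unfold pl pr ql qr
    rw [mk_of, lf_of, lf_of, dm_of, MonoidHom.comp_apply, MonoidHom.comp_apply, lf_of, lf_of,
      MonoidHom.comp_apply, MonoidHom.comp_apply, one_smul, ← rel0 hS hT a]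
    ring
  | h2 x y hx hy =>
    simp only [map_add, add_smul]
    rw [hx, hy]
    ring
  | h3 n x hx =>
    simp only [map_zsmul]
    rw [hx, smul_assoc, smul_sub, smul_add]

theorem Ph_injective (hS : LAx S) (hT : LAx T) : Function.Injective (Ph S T) := by
  rw [injective_iff_map_eq_zero]
  intro z hz
  obtain ⟨x, rfl⟩ := Ideal.Quotient.mk_surjective z
  rw [Ph_mk] at hz
  have h1 : ql S T x ∈ JI S := Ideal.Quotient.eq_zero_iff_mem.1 (congrArg Prod.fst hz)
  have h2 : qr S T x ∈ JI T := Ideal.Quotient.eq_zero_iff_mem.1 (congrArg Prod.snd hz)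
  obtain ⟨m, h3, h4⟩ := gen_J ((cl (S.prod T)).comp (inlH S T)) (fun g => hl_mul hS hT g)
    (fun a b c d h => cl_bin (bin_prod h (bin1 hT 1))) _ h1
  obtain ⟨n, h5, h6⟩ := gen_J ((cl (S.prod T)).comp (inrH S T)) (fun g => hr_mul hS hT g)
    (fun a b c d h => cl_bin (bin_prod (bin1 hS 1) h)) _ h2
  rw [dm_ql] at h4
  rw [dm_qr] at h6
  have hmn : m = n := by omega
  subst hmn
  have h7 : pl S T (ql S T x) = m • hl S T := h3
  have h8 : pr S T (qr S T x) = m • hr S T := h5
  rw [mk_eq hS hT, h7, h8, h4]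
  have h9 := hsum hS hT
  have h10 : m • hl S T + m • hr S T - (2 * m) • (1 : WS (S.prod T)) =
      m • (hl S T + hr S T - 2) := by
    simp only [zsmul_eq_mul]
    push_cast
    ring
  rw [h10, h9, smul_zero]

theorem Ph_fib (z : WS (S.prod T)) : Ph S T z ∈ fib (eW S) (eW T) := by
  have h : ((eW S).comp (RingHom.fst _ _)).comp (Ph S T) =
      ((eW T).comp (RingHom.snd _ _)).comp (Ph S T) := by
    refine WS.hom_ext fun a => ?_
    simp only [RingHom.comp_apply, Ph_cl, RingHom.coe_fst, RingHom.coe_snd, eW_cl]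
  exact RingHom.congr_fun h z

theorem eW_mk (x : MonoidAlgebra ℤ S.G) :
    eW S (Ideal.Quotient.mk (JI S) x) = ((dm S.G x : ℤ) : ZMod 2) := by
  induction x using mind with
  | h1 a => rw [mk_of, eW_cl, dm_of, Int.cast_one]
  | h2 x y hx hy => rw [map_add, map_add, map_add, hx, hy, Int.cast_add]
  | h3 n x hx =>
    rw [map_zsmul, map_zsmul, map_zsmul, hx, zsmul_eq_mul, smul_eq_mul, Int.cast_mul]

theorem Ph_pl (x : MonoidAlgebra ℤ S.G) : Ph S T (pl S T x) =
    (Ideal.Quotient.mk (JI S) x, dm S.G x • (1 : WS T)) := by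
  induction x using mind with
  | h1 a =>
    unfold pl
    rw [lf_of, dm_of, one_smul, MonoidHom.comp_apply, Ph_cl, mk_of, ← map_one (cl T)]
    rfl
  | h2 x y hx hy =>
    rw [map_add, map_add, map_add, map_add, hx, hy, add_smul]
    rfl
  | h3 n x hx =>
    rw [map_zsmul, map_zsmul, map_zsmul, map_zsmul, hx, smul_assoc]
    rfl

theorem Ph_pr (x : MonoidAlgebra ℤ T.G) : Ph S T (pr S T x) =
    (dm T.G x • (1 : WS S), Ideal.Quotient.mk (JI T) x) := by
  induction x using mind with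
  | h1 a =>
    unfold pr
    rw [lf_of, dm_of, one_smul, MonoidHom.comp_apply, Ph_cl, mk_of, ← map_one (cl S)]
    rfl
  | h2 x y hx hy =>
    rw [map_add, map_add, map_add, map_add, hx, hy, add_smul]
    rfl
  | h3 n x hx =>
    rw [map_zsmul, map_zsmul, map_zsmul, map_zsmul, hx, smul_assoc]
    rfl

theorem Ph_surj (w : WS S × WS T) (hw : w ∈ fib (eW S) (eW T)) : ∃ z, Ph S T z = w := by
  obtain ⟨x', y'⟩ := w
  obtain ⟨x, rfl⟩ := Ideal.Quotient.mk_surjective x'
  obtain ⟨y, rfl⟩ := Ideal.Quotient.mk_surjective y'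
  have h1 : eW S (Ideal.Quotient.mk (JI S) x) = eW T (Ideal.Quotient.mk (JI T) y) := hw
  rw [eW_mk, eW_mk, ZMod.intCast_eq_intCast_iff] at h1
  obtain ⟨m, hm⟩ := h1.symm.dvd
  have hm' : dm S.G x - dm T.G y = 2 * m := hm
  refine ⟨pl S T x + pr S T y - dm T.G y • 1 - m • hl S T, ?_⟩
  have h2 : Ph S T (hl S T) = (0, 2) := by
    unfold hl
    rw [map_add, map_one, Ph_cl]
    have h3 := cl_add_neg (S := S)
    rw [map_one] at h3
    refine Prod.ext h3 ?_
    show (1 : WS T) + cl T 1 = 2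
    rw [map_one]
    norm_num
  rw [map_sub, map_sub, map_add, map_zsmul, map_zsmul, Ph_pl, Ph_pr, h2, map_one]
  refine Prod.ext ?_ ?_
  · show Ideal.Quotient.mk (JI S) x + dm T.G y • (1 : WS S) - dm T.G y • (1 : WS S) -
      m • (0 : WS S) = Ideal.Quotient.mk (JI S) x
    rw [smul_zero]
    ring
  · show dm S.G x • (1 : WS T) + Ideal.Quotient.mk (JI T) y - dm T.G y • (1 : WS T) -
      m • (2 : WS T) = Ideal.Quotient.mk (JI T) y
    have h3 : dm S.G x = dm T.G y + 2 * m := by omega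
    rw [h3]
    simp only [zsmul_eq_mul]
    push_cast
    ring

end

end PI

open PI

theorem prodIso {S : QStr.{u}} {T : QStr.{v}} (hS : LAx S) (hT : LAx T) :
    PairIso (eW (S.prod T)) (fibE (eW S) (eW T)) := by
  let f : WS (S.prod T) →+* fib (eW S) (eW T) := (Ph S T).codRestrict _ Ph_fib
  have hf : Function.Bijective f := by
    constructor
    · intro x y hxy
      exact Ph_injective hS hT (congrArg Subtype.val hxy)
    · rintro ⟨w, hw⟩
      obtain ⟨z, hz⟩ := Ph_surj w hw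
      exact ⟨z, Subtype.ext hz⟩
  refine ⟨RingEquiv.ofBijective f hf, fun x => ?_⟩
  have h : (fibE (eW S) (eW T)).comp f = eW (S.prod T) := by
    refine WS.hom_ext fun a => ?_
    rw [eW_cl]
    show eW S (Ph S T (cl (S.prod T) a)).1 = 1
    rw [Ph_cl, eW_cl]
  exact RingHom.congr_fun h x

end Pool.Agent.WittR
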