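import Pool.Agent.WittR.FieldIso
import Pool.Agent.WittR.AbsProd
import Pool.Agent.WittR.AbsExt

/-!
# Rings of elementary type
-/

namespace Pool.Agent.WittR

open Pool.Agent.Hhelper2

universe u v w

/-- Pairs `(R, e)` of elementary type: the smallest class of pairs (a commutative ring `R` with a
ring homomorphism `e : R → ℤ/2`), closed under isomorphism, which contains `(W(K), e_K)` for
`K = ℂ`, `ℝ`, `𝔽₃` and for every finite extension `K` of `ℚ₂`, and which is closed under the fibre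
product over `ℤ/2` and under the group ring extension `R[C₂]`. -/
inductive ElemPair : (R : Type u) → [CommRing R] → (R →+* ZMod 2) → Prop
  | complex (R : Type u) [CommRing R] (e : R →+* ZMod 2) : PairIso e (dimW ℂ) → ElemPair R e
  | real (R : Type u) [CommRing R] (e : R →+* ZMod 2) : PairIso e (dimW ℝ) → ElemPair R e
  | three (R : Type u) [CommRing R] (e : R →+* ZMod 2) : PairIso e (dimW (ZMod 3)) → ElemPair R e
  | dyadic (R : Type u) [CommRing R] (e : R →+* ZMod 2) (K : Type) [Field K] [Algebra ℚ_[2] K]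
      [FiniteDimensional ℚ_[2] K] : PairIso e (dimW K) → ElemPair R e
  | fibre (R R₁ R₂ : Type u) [CommRing R] [CommRing R₁] [CommRing R₂] (e : R →+* ZMod 2)
      (e₁ : R₁ →+* ZMod 2) (e₂ : R₂ →+* ZMod 2) : ElemPair R₁ e₁ → ElemPair R₂ e₂ →
      PairIso e (fibE e₁ e₂) → ElemPair R e
  | ext (R R₁ : Type u) [CommRing R] [CommRing R₁] (e : R →+* ZMod 2) (e₁ : R₁ →+* ZMod 2) :
      ElemPair R₁ e₁ → PairIso e (extE e₁) → ElemPair R e

theorem PairIso.trans {R : Type u} {R' : Type v} {R'' : Type w} [CommRing R] [CommRing R']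
    [CommRing R''] {e : R →+* ZMod 2} {e' : R' →+* ZMod 2} {e'' : R'' →+* ZMod 2}
    (h : PairIso e e') (h' : PairIso e' e'') : PairIso e e'' := by
  obtain ⟨f, hf⟩ := h
  obtain ⟨g, hg⟩ := h'
  exact ⟨f.trans g, fun x => (hg (f x)).trans (hf x)⟩

theorem PairIso.symm {R : Type u} {R' : Type v} [CommRing R] [CommRing R']
    {e : R →+* ZMod 2} {e' : R' →+* ZMod 2} (h : PairIso e e') : PairIso e' e := by
  obtain ⟨f, hf⟩ := h
  refine ⟨f.symm, fun x => ?_⟩
  rw [← hf (f.symm x), f.apply_symm_apply]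

theorem ElemPair.congr {R R' : Type u} [CommRing R] [CommRing R'] {e : R →+* ZMod 2}
    {e' : R' →+* ZMod 2} (h : PairIso e e') (h' : ElemPair R' e') : ElemPair R e := by
  cases h' with
  | complex _ _ g => exact ElemPair.complex R e (h.trans g)
  | real _ _ g => exact ElemPair.real R e (h.trans g)
  | three _ _ g => exact ElemPair.three R e (h.trans g)
  | dyadic _ _ K g => exact ElemPair.dyadic R e K (h.trans g)
  | fibre _ R₁ R₂ _ e₁ e₂ h1 h2 g => exact ElemPair.fibre R R₁ R₂ e e₁ e₂ h1 h2 (h.trans g)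
  | ext _ R₁ _ e₁ h1 g => exact ElemPair.ext R R₁ e e₁ h1 (h.trans g)

/-! ### The axioms -/

theorem lax_field (K : Type u) [Field K] (h2 : (2 : K) ≠ 0) : LAx (QStr.ofField K) := by
  have h := QStr.ofField_axioms K h2
  exact ⟨h.sq, h.symm, h.one, h.neg⟩

theorem lax_iso {S : QStr.{u}} {T : QStr.{v}} (f : S.Iso T) (h : LAx T) : LAx S where
  sq a := f.e.injective (by rw [map_mul, map_one, h.sq])
  symm a b hab := (f.map_split _ _).2 (h.symm _ _ ((f.map_split _ _).1 hab))
  one a := (f.map_split _ _).2 (by rw [map_one]; exact h.one _)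
  neg a := (f.map_split _ _).2 (by rw [map_mul, f.map_neg]; exact h.neg _)

theorem lax_prod {S : QStr.{u}} {T : QStr.{v}} (hS : LAx S) (hT : LAx T) : LAx (S.prod T) where
  sq a := Prod.ext (hS.sq a.1) (hT.sq a.2)
  symm a b h := ⟨hS.symm _ _ h.1, hT.symm _ _ h.2⟩
  one a := ⟨hS.one a.1, hT.one a.2⟩
  neg a := ⟨hS.neg a.1, hT.neg a.2⟩

theorem lax_ext {S : QStr.{u}} (hS : LAx S) : LAx S.ext where
  sq a := by
    have h : ∀ i : Multiplicative (ZMod 2), i * i = 1 := by decide
    exact Prod.ext (hS.sq a.1) (h a.2)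
  symm a b h := by
    rcases h with h | h | h | h
    · exact Or.inl ⟨h.2.1, h.1, hS.symm _ _ h.2.2⟩
    · exact Or.inr (Or.inr (Or.inl h))
    · exact Or.inr (Or.inl h)
    · refine Or.inr (Or.inr (Or.inr ⟨h.2.1, h.1, ?_⟩))
      rw [h.2.2, ← mul_assoc, hS.sq, one_mul]
  one a := Or.inr (Or.inr (Or.inl rfl))
  neg a := by
    have e : (S.ext.neg * a : S.ext.G) = ((S.neg * a.1, a.2) : S.G × Multiplicative (ZMod 2)) :=
      Prod.ext rfl (one_mul a.2)
    rw [e]
    by_cases h : a.2 = 1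
    · exact Or.inl ⟨h, h, hS.neg a.1⟩
    · exact Or.inr (Or.inr (Or.inr ⟨h, h, rfl⟩))

/-- The Witt ring of a structure of elementary type is of elementary type. -/
theorem elem_main {S : QStr.{u}} (h : IsElementary S) : LAx S ∧ ElemPair (WS S) (eW S) := by
  induction h with
  | complex S h =>
    obtain ⟨f⟩ := h
    have h2 : (2 : ℂ) ≠ 0 := by norm_num
    exact ⟨lax_iso f (lax_field ℂ h2), ElemPair.complex _ _ ((isoIso f).trans (fieldIso h2).symm)⟩
  | real S h =>
    obtain ⟨f⟩ := h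
    have h2 : (2 : ℝ) ≠ 0 := by norm_num
    exact ⟨lax_iso f (lax_field ℝ h2), ElemPair.real _ _ ((isoIso f).trans (fieldIso h2).symm)⟩
  | three S h =>
    obtain ⟨f⟩ := h
    have h2 : (2 : ZMod 3) ≠ 0 := by decide
    exact ⟨lax_iso f (lax_field (ZMod 3) h2),
      ElemPair.three _ _ ((isoIso f).trans (fieldIso h2).symm)⟩
  | dyadic S K h =>
    obtain ⟨f⟩ := h
    have h2 : (2 : K) ≠ 0 := by
      have h3 : (algebraMap ℚ_[2] K) 2 ≠ 0 := (map_ne_zero _).2 (by norm_num)
      rwa [map_ofNat] at h3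
    exact ⟨lax_iso f (lax_field K h2),
      ElemPair.dyadic _ _ K ((isoIso f).trans (fieldIso h2).symm)⟩
  | prod S T U hS hT h iS iT =>
    obtain ⟨f⟩ := h
    refine ⟨lax_iso f (lax_prod iS.1 iT.1), ElemPair.fibre _ _ _ _ _ _ iS.2 iT.2
      ((isoIso f).trans (prodIso iS.1 iT.1))⟩
  | ext S U hS h iS =>
    obtain ⟨f⟩ := h
    exact ⟨lax_iso f (lax_ext iS.1), ElemPair.ext _ _ _ _ iS.2 ((isoIso f).trans (extIso iS.1))⟩

/-- If the quaternionic structure of a field is of elementary type, then its Witt ring is of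
elementary type. -/
theorem elemPair_of_isElementary {F : Type u} [Field F] (h2 : (2 : F) ≠ 0)
    (h : IsElementary (QStr.ofField F)) : ElemPair (WittRing F) (dimW F) :=
  ElemPair.congr (fieldIso h2) (elem_main h).2

end Pool.Agent.WittR
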