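import Pool.Agent.WittR.Cancel

/-!
# The chain equivalence theorem (Witt)

PROOF of `represents` by induction on `l` (generalise `v`, `b`): `l = a :: t`,
`b = a x² + diag t v'`. Let `c = diag t v'`. If `c = 0` then `x ≠ 0`, `b = a x²`: take `l' = t`. If
`c ≠ 0`: by induction `t ≅ c :: t'`, so `l ≅ a :: c :: t'`; here `b = a x² + c 1²`, so
`⟨a, c⟩ ≅ ⟨b, a c b⟩` by `equiv_bin`: take `l' = a c b :: t'`.
PROOF of `chain` by induction on the length of `l`: `l' = b :: t'` represents `b`, so by the isometry
`l` represents `b`: `l ≅ b :: l''` with `Σ f(l) = f b + Σ f(l'')`; by `witt_cancel` `l'' ≅ t'`.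
-/

namespace Pool.Agent.WittR

open Pool.Agent.Hhelper2

universe u v

variable {F : Type u} [Field F]

theorem represents {A : Type v} [AddCommGroup A] (f : Fˣ → A) (hsq : ∀ a s : Fˣ, f (a * s ^ 2) = f a)
    (hbin : ∀ (a b c : Fˣ) (x y : F), (c : F) = a * x ^ 2 + b * y ^ 2 →
      f a + f b = f c + f (a * b * c)) (l : List Fˣ) (v : Fin l.length → F) (b : Fˣ)
    (hb : diag l v = (b : F)) :
    ∃ l' : List Fˣ, l'.length + 1 = l.length ∧ (diag l).Equivalent (diag (b :: l')) ∧
      (l.map f).sum = f b + (l'.map f).sum := by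
  induction l generalizing b with
  | nil =>
    rw [diag_nil_apply] at hb
    exact absurd hb.symm b.ne_zero
  | cons a t ih =>
    rw [diag_cons_apply] at hb
    by_cases hc : diag t (fun i : Fin t.length => v i.succ) = 0
    · rw [hc, add_zero] at hb
      have hx : v 0 ≠ 0 := by
        intro h0
        rw [h0] at hb
        apply b.ne_zero
        rw [← hb]
        ring
      have hbs : b = a * (Units.mk0 (v 0) hx) ^ 2 := by
        apply Units.ext
        push_cast
        rw [Units.val_mk0]
        exact hb.symm
      refine ⟨t, by rw [List.length_cons], ?_, ?_⟩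
      · rw [hbs]
        exact equiv_sq a _ t
      · rw [List.map_cons, List.sum_cons, hbs, hsq]
    · obtain ⟨t', ht1, ht2, ht3⟩ := ih (fun i : Fin t.length => v i.succ) (Units.mk0 _ hc)
        (Units.val_mk0 hc).symm
      have hb' : (b : F) = a * v 0 ^ 2 + (Units.mk0 _ hc : Fˣ) * (1 : F) ^ 2 := by
        rw [Units.val_mk0, ← hb]
        ring
      refine ⟨a * Units.mk0 _ hc * b :: t', ?_, ?_, ?_⟩
      · rw [List.length_cons, List.length_cons, ht1]
      · exact (equiv_cons a ht2).trans (equiv_bin hb' t')
      · rw [List.map_cons, List.sum_cons, ht3, List.map_cons, List.sum_cons, ← add_assoc,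
          hbin a _ b _ _ hb', add_assoc]

/-- Chain equivalence: an additive invariant of forms which is invariant under isometries of one-
and two-dimensional forms is invariant under all isometries. -/
theorem chain (h2 : (2 : F) ≠ 0) {A : Type v} [AddCommGroup A] (f : Fˣ → A)
    (hsq : ∀ a s : Fˣ, f (a * s ^ 2) = f a)
    (hbin : ∀ (a b c : Fˣ) (x y : F), (c : F) = a * x ^ 2 + b * y ^ 2 →
      f a + f b = f c + f (a * b * c)) (l l' : List Fˣ) (h : (diag l).Equivalent (diag l')) :
    (l.map f).sum = (l'.map f).sum := by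
  induction l' generalizing l with
  | nil =>
    have h0 := length_eq h
    rw [List.length_nil] at h0
    rw [List.eq_nil_of_length_eq_zero h0]
  | cons b t' ih =>
    obtain ⟨e⟩ := h
    let w : Fin (b :: t').length → F :=
      Fin.cons (α := fun _ : Fin (t'.length + 1) => F) (1 : F) (fun _ => 0)
    have hw : diag (b :: t') w = (b : F) := by
      rw [diag_cons_apply]
      have h1 : w 0 = 1 := rfl
      have h2 : (fun i : Fin t'.length => w i.succ) = 0 := rfl
      rw [h1, h2, QuadraticMap.map_zero]
      ring
    have hv : diag l (e.symm w) = (b : F) := by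
      rw [← hw]
      exact e.symm.map_app w
    obtain ⟨l'', _, hl2, hl3⟩ := represents f hsq hbin l (e.symm w) b hv
    have h3 : (diag (b :: l'')).Equivalent (diag (b :: t')) := hl2.symm.trans ⟨e⟩
    rw [hl3, List.map_cons, List.sum_cons, ih l'' (witt_cancel h2 h3)]

end Pool.Agent.WittR
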