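import Pool.Agent.WittR.Defs

/-!
# Basic isometries of diagonal forms
-/

namespace Pool.Agent.WittR

open Pool.Agent.Hhelper2

universe u

variable {F : Type u} [Field F]

theorem diag_nil_apply (v : Fin ([] : List Fˣ).length → F) : diag ([] : List Fˣ) v = 0 := by
  unfold diag
  rw [QuadraticMap.weightedSumSquares_apply]
  exact Finset.sum_empty

theorem diag_cons_apply (a : Fˣ) (l : List Fˣ) (v : Fin (a :: l).length → F) :
    diag (a :: l) v = (a : F) * v 0 ^ 2 + diag l (fun i : Fin l.length => v i.succ) := by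
  unfold diag
  rw [QuadraticMap.weightedSumSquares_apply, QuadraticMap.weightedSumSquares_apply]
  refine (Fin.sum_univ_succ (n := l.length) _).trans ?_
  congr 1
  change (a : F) * (v 0 * v 0) = _
  ring

/-- `v ↦ (v 0, f (v 1, ...))` -/
def consE {n m : ℕ} (f : (Fin n → F) ≃ₗ[F] (Fin m → F)) :
    (Fin (n + 1) → F) ≃ₗ[F] (Fin (m + 1) → F) :=
  ((Fin.consLinearEquiv F (fun _ : Fin (n + 1) => F)).symm.trans
    (LinearEquiv.prodCongr (LinearEquiv.refl F F) f)).trans
    (Fin.consLinearEquiv F (fun _ : Fin (m + 1) => F))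

theorem consE_zero {n m : ℕ} (f : (Fin n → F) ≃ₗ[F] (Fin m → F)) (v : Fin (n + 1) → F) :
    consE f v 0 = v 0 := rfl

theorem consE_succ {n m : ℕ} (f : (Fin n → F) ≃ₗ[F] (Fin m → F)) (v : Fin (n + 1) → F)
    (i : Fin m) : consE f v i.succ = f (fun j => v j.succ) i := rfl

theorem equiv_cons (a : Fˣ) {l l' : List Fˣ} (h : (diag l).Equivalent (diag l')) :
    (diag (a :: l)).Equivalent (diag (a :: l')) := by
  obtain ⟨f⟩ := h
  refine ⟨⟨consE f.toLinearEquiv, fun v => ?_⟩⟩
  rw [diag_cons_apply, diag_cons_apply]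
  congr 1
  exact f.map_app' _

/-- apply a linear automorphism of the plane to the first two coordinates -/
def binE {n : ℕ} (g : (F × F) ≃ₗ[F] (F × F)) : (Fin (n + 1 + 1) → F) ≃ₗ[F] (Fin (n + 1 + 1) → F) :=
  let e : (Fin (n + 1 + 1) → F) ≃ₗ[F] (F × F) × (Fin n → F) :=
    ((Fin.consLinearEquiv F (fun _ : Fin (n + 1 + 1) => F)).symm.trans
      (LinearEquiv.prodCongr (LinearEquiv.refl F F)
        (Fin.consLinearEquiv F (fun _ : Fin (n + 1) => F)).symm)).trans
      (LinearEquiv.prodAssoc F F F (Fin n → F)).symm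
  (e.trans (LinearEquiv.prodCongr g (LinearEquiv.refl F (Fin n → F)))).trans e.symm

theorem binE_zero {n : ℕ} (g : (F × F) ≃ₗ[F] (F × F)) (v : Fin (n + 1 + 1) → F) :
    binE g v 0 = (g (v 0, v 1)).1 := rfl

theorem binE_one {n : ℕ} (g : (F × F) ≃ₗ[F] (F × F)) (v : Fin (n + 1 + 1) → F) :
    binE g v (Fin.succ 0) = (g (v 0, v 1)).2 := rfl

theorem binE_succ {n : ℕ} (g : (F × F) ≃ₗ[F] (F × F)) (v : Fin (n + 1 + 1) → F) (i : Fin n) :
    binE g v i.succ.succ = v i.succ.succ := rfl

/-- isometries of binary forms extend -/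
theorem equiv_of_bin {a b c d : Fˣ} (g : (F × F) ≃ₗ[F] (F × F))
    (hg : ∀ v : F × F, (c : F) * (g v).1 ^ 2 + d * (g v).2 ^ 2 = a * v.1 ^ 2 + b * v.2 ^ 2)
    (l : List Fˣ) : (diag (a :: b :: l)).Equivalent (diag (c :: d :: l)) := by
  refine ⟨⟨binE g, fun v => ?_⟩⟩
  rw [diag_cons_apply, diag_cons_apply, diag_cons_apply, diag_cons_apply, ← add_assoc,
    ← add_assoc]
  congr 1
  exact hg (v 0, v 1)

theorem equiv_swap (a b : Fˣ) (l : List Fˣ) :
    (diag (a :: b :: l)).Equivalent (diag (b :: a :: l)) := by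
  refine equiv_of_bin (LinearEquiv.prodComm F F F) (fun v => ?_) l
  simp only [LinearEquiv.prodComm_apply, Prod.fst_swap, Prod.snd_swap]
  ring

theorem equiv_perm {l l' : List Fˣ} (h : l.Perm l') : (diag l).Equivalent (diag l') := by
  induction h with
  | nil => exact QuadraticMap.Equivalent.refl _
  | cons a _ ih => exact equiv_cons a ih
  | swap a b l => exact equiv_swap b a l
  | trans _ _ ih1 ih2 => exact ih1.trans ih2

theorem equiv_append_left (l : List Fˣ) {m m' : List Fˣ} (h : (diag m).Equivalent (diag m')) :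
    (diag (l ++ m)).Equivalent (diag (l ++ m')) := by
  induction l with
  | nil => exact h
  | cons a l ih => exact equiv_cons a ih

theorem equiv_append {l l' m m' : List Fˣ} (h : (diag l).Equivalent (diag l'))
    (h' : (diag m).Equivalent (diag m')) : (diag (l ++ m)).Equivalent (diag (l' ++ m')) :=
  (equiv_append_left l h').trans ((equiv_perm List.perm_append_comm).trans
    ((equiv_append_left m' h).trans (equiv_perm List.perm_append_comm)))

theorem diag_map_apply (c : Fˣ) (l : List Fˣ) (v : Fin (l.map (fun a => c * a)).length → F) :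
    diag (l.map (fun a => c * a)) v =
      c * diag l (fun i => v (Fin.cast (List.length_map (fun a => c * a)).symm i)) := by
  induction l with
  | nil =>
    rw [diag_nil_apply]
    exact (diag_nil_apply _).trans (mul_zero _).symm
  | cons a l ih =>
    rw [diag_cons_apply, mul_add]
    refine (diag_cons_apply (c * a) (l.map (fun a => c * a)) v).trans ?_
    congr 1
    · rw [Units.val_mul, mul_assoc]
      rfl
    · exact ih _

theorem equiv_scale (c : Fˣ) {l l' : List Fˣ} (h : (diag l).Equivalent (diag l')) :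
    (diag (l.map (fun a => c * a))).Equivalent (diag (l'.map (fun a => c * a))) := by
  obtain ⟨f⟩ := h
  refine ⟨⟨((LinearEquiv.funCongrLeft F F
    (finCongr (List.length_map (fun a => c * a) (as := l)).symm)).trans f.toLinearEquiv).trans
    (LinearEquiv.funCongrLeft F F
      (finCongr (List.length_map (fun a => c * a) (as := l')))), fun v => ?_⟩⟩
  rw [diag_map_apply, diag_map_apply]
  congr 1
  exact f.map_app' _

theorem length_eq {l l' : List Fˣ} (h : (diag l).Equivalent (diag l')) :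
    l.length = l'.length := by
  obtain ⟨f⟩ := h
  have := f.toLinearEquiv.finrank_eq
  rwa [Module.finrank_fin_fun, Module.finrank_fin_fun] at this

/-- `⟨a⟩ ≅ ⟨a s²⟩`. -/
theorem equiv_sq (a s : Fˣ) (l : List Fˣ) :
    (diag (a :: l)).Equivalent (diag (a * s ^ 2 :: l)) := by
  refine ⟨⟨((Fin.consLinearEquiv F (fun _ : Fin (l.length + 1) => F)).symm.trans
      (LinearEquiv.prodCongr (LinearEquiv.smulOfUnit s⁻¹) (LinearEquiv.refl F _))).trans
      (Fin.consLinearEquiv F (fun _ : Fin (l.length + 1) => F)), fun v => ?_⟩⟩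
  rw [diag_cons_apply, diag_cons_apply]
  congr 1
  change ((a * s ^ 2 : Fˣ) : F) * (((s⁻¹ : Fˣ) : F) * v 0) ^ 2 = a * v 0 ^ 2
  have hs : (s : F) ≠ 0 := s.ne_zero
  push_cast
  field_simp

/-- If `c = a x² + b y²`, then `⟨a, b⟩ ≅ ⟨c, abc⟩`. -/
theorem equiv_bin {a b c : Fˣ} {x y : F} (h : (c : F) = a * x ^ 2 + b * y ^ 2) (l : List Fˣ) :
    (diag (a :: b :: l)).Equivalent (diag (c :: a * b * c :: l)) := by
  have hc : (c : F) ≠ 0 := c.ne_zero
  refine equiv_of_bin
    { toFun := fun v => (((a : F) * x * v.1 + b * y * v.2) * (c : F)⁻¹,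
        (-y * v.1 + x * v.2) * (c : F)⁻¹)
      invFun := fun w => (w.1 * x - w.2 * b * y, w.1 * y + w.2 * a * x)
      map_add' := fun v w => by
        ext <;> simp only [Prod.fst_add, Prod.snd_add] <;> ring
      map_smul' := fun r v => by
        ext <;> simp only [Prod.smul_fst, Prod.smul_snd, smul_eq_mul, RingHom.id_apply] <;> ring
      left_inv := fun v => by
        have hci : (c : F) * (c : F)⁻¹ = 1 := mul_inv_cancel₀ hc
        ext
        · simp only
          linear_combination v.1 * hci - v.1 * (c : F)⁻¹ * h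
        · simp only
          linear_combination v.2 * hci - v.2 * (c : F)⁻¹ * h
      right_inv := fun w => by
        have hci : (c : F) * (c : F)⁻¹ = 1 := mul_inv_cancel₀ hc
        ext
        · simp only
          linear_combination w.1 * hci - w.1 * (c : F)⁻¹ * h
        · simp only
          linear_combination w.2 * hci - w.2 * (c : F)⁻¹ * h } (fun v => ?_) l
  change (c : F) * ((((a : F) * x * v.1 + b * y * v.2) * (c : F)⁻¹)) ^ 2 +
    ((a * b * c : Fˣ) : F) * ((-y * v.1 + x * v.2) * (c : F)⁻¹) ^ 2 = _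
  push_cast
  have h2 : (c : F) * ((((a : F) * x * v.1 + b * y * v.2) * (c : F)⁻¹)) ^ 2 +
    ((a : F) * b * c) * ((-y * v.1 + x * v.2) * (c : F)⁻¹) ^ 2 =
    (c : F)⁻¹ * (((a : F) * x * v.1 + b * y * v.2) ^ 2 + a * b * (-y * v.1 + x * v.2) ^ 2) := by
    field_simp
  rw [h2]
  have h3 : ((a : F) * x * v.1 + b * y * v.2) ^ 2 + a * b * (-y * v.1 + x * v.2) ^ 2 =
      c * (a * v.1 ^ 2 + b * v.2 ^ 2) := by
    rw [h]; ring
  rw [h3, inv_mul_cancel_left₀ hc]

end Pool.Agent.WittR
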