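import Pool.Agent.WittR.Basic

/-!
# Witt cancellation for diagonal forms

PROOF. General statement: `Q₁` on `M₁`, `Q₂` on `M₂`, `b ≠ 0`, and an isometry `f` from
`b x² + Q₁ m` on `F × M₁` to `b x² + Q₂ m` on `F × M₂`. Let `e = (1, 0)`, `u = f e`, so
`Q u = b = Q e`. Since `Q (u - e) + Q (u + e) = 2 Q u + 2 Q e = 4 b ≠ 0`, one of `u - e`, `u + e` is
anisotropic; the reflection in it (`Module.reflection` with the functional
`y ↦ polar w y / Q w`) is an isometry which maps `u` to `e` respectively `- e`; compose with `- 1` in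
the second case. So we may assume `f e = e`. Then `f (0, m) = (0, m')` because the polar form is
preserved and `2 b ≠ 0`, and `m ↦ m'` is an isometry `M₁ → M₂` (inverse from `f⁻¹`).
-/

namespace Pool.Agent.WittR

open Pool.Agent.Hhelper2

universe u

variable {F : Type u} [Field F]

namespace WittCancel

/-- the form `b x² + Q m` on `F × M` -/
noncomputable def ext {M : Type*} [AddCommGroup M] [Module F M] (b : F) (Q : QuadraticForm F M) :
    QuadraticForm F (F × M) :=
  (b • QuadraticMap.sq (R := F)).prod Q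

theorem ext_apply {M : Type*} [AddCommGroup M] [Module F M] (b : F) (Q : QuadraticForm F M)
    (p : F × M) : ext b Q p = b * p.1 ^ 2 + Q p.2 := by
  simp [ext, QuadraticMap.prod_apply, pow_two]

/-- An isometry which maps `u` to `e` if `Q u = Q e ≠ 0`. -/
theorem exists_refl (h2 : (2 : F) ≠ 0) {M : Type*} [AddCommGroup M] [Module F M]
    (Q : QuadraticForm F M) {u e : M} (h : Q u = Q e) (he : Q e ≠ 0) :
    ∃ r : M ≃ₗ[F] M, (∀ y, Q (r y) = Q y) ∧ r u = e := by
  have hadd : ∀ x y : M, Q (x + y) = Q x + Q y + QuadraticMap.polar Q x y := fun x y =>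
    QuadraticMap.map_add Q x y
  have hsub : ∀ x y : M, Q (x - y) = Q x + Q y - QuadraticMap.polar Q x y := by
    intro x y
    rw [sub_eq_add_neg, hadd, QuadraticMap.map_neg, QuadraticMap.polar_neg_right]
    ring
  -- reflection in an anisotropic vector
  have key : ∀ w : M, Q w ≠ 0 → ∃ r : M ≃ₗ[F] M, (∀ y, Q (r y) = Q y) ∧
      ∀ y, r y = y - (QuadraticMap.polar Q w y / Q w) • w := by
    intro w hw
    set φ : Module.Dual F M := (Q w)⁻¹ • QuadraticMap.polarBilin Q w with hφ
    have hφa : ∀ y, φ y = QuadraticMap.polar Q w y / Q w := by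
      intro y
      rw [hφ, LinearMap.smul_apply, QuadraticMap.polarBilin_apply_apply, smul_eq_mul]
      field_simp
    have hφw : φ w = 2 := by
      rw [hφa, QuadraticMap.polar_self, two_nsmul]
      field_simp
      norm_num
    refine ⟨Module.reflection hφw, fun y => ?_, fun y => ?_⟩
    · rw [Module.reflection_apply, hφa, hsub, QuadraticMap.map_smul, QuadraticMap.polar_smul_right,
        QuadraticMap.polar_comm Q y w, smul_eq_mul, smul_eq_mul]
      field_simp
      ring
    · rw [Module.reflection_apply, hφa]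
  by_cases h1 : Q (u - e) = 0
  · -- use `u + e`
    have h3 : Q (u + e) ≠ 0 := by
      intro h3
      have h4 : Q (u - e) + Q (u + e) = 2 * 2 * Q e := by
        rw [hsub, hadd, h]; ring
      rw [h1, h3, add_zero] at h4
      have h5 := h4.symm
      simp only [mul_eq_zero, h2, he, or_self] at h5
    obtain ⟨r, hr, hra⟩ := key _ h3
    refine ⟨r.trans (LinearEquiv.neg F), fun y => ?_, ?_⟩
    · simp only [LinearEquiv.trans_apply, LinearEquiv.neg_apply, QuadraticMap.map_neg, hr]
    · simp only [LinearEquiv.trans_apply, LinearEquiv.neg_apply, hra]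
      have h4 : QuadraticMap.polar Q (u + e) u / Q (u + e) = 1 := by
        rw [div_eq_one_iff_eq h3, QuadraticMap.polar_add_left, QuadraticMap.polar_self, hadd, h,
          QuadraticMap.polar_comm Q e u, two_nsmul]
      rw [h4, one_smul]
      abel
  · obtain ⟨r, hr, hra⟩ := key _ h1
    refine ⟨r, hr, ?_⟩
    rw [hra]
    have h4 : QuadraticMap.polar Q (u - e) u / Q (u - e) = 1 := by
      rw [div_eq_one_iff_eq h1, QuadraticMap.polar_sub_left, QuadraticMap.polar_self, hsub, h,
        QuadraticMap.polar_comm Q e u, two_nsmul]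
    rw [h4, one_smul]
    abel

/-- the second components of an isometry fixing `(1, 0)` -/
theorem fst_zero (h2 : (2 : F) ≠ 0) {b : F} (hb : b ≠ 0) {M₁ M₂ : Type*} [AddCommGroup M₁]
    [Module F M₁] [AddCommGroup M₂] [Module F M₂] {Q₁ : QuadraticForm F M₁}
    {Q₂ : QuadraticForm F M₂} (g : (F × M₁) ≃ₗ[F] (F × M₂)) (hg : ∀ p, ext b Q₂ (g p) = ext b Q₁ p)
    (he : g (1, 0) = (1, 0)) (m : M₁) : (g (0, m)).1 = 0 := by
  have e1 := hg (0, m)
  have e2 := hg ((0, m) + (1, 0))
  rw [map_add, he] at e2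
  rw [ext_apply, ext_apply] at e1 e2
  simp only [Prod.fst_add, Prod.snd_add, add_zero, zero_add] at e1 e2
  have e3 : 2 * (b * (g (0, m)).1) = 0 := by linear_combination e2 - e1
  have e4 := (mul_eq_zero.mp e3).resolve_left h2
  exact (mul_eq_zero.mp e4).resolve_left hb

theorem cancel (h2 : (2 : F) ≠ 0) {b : F} (hb : b ≠ 0) {M₁ M₂ : Type*} [AddCommGroup M₁]
    [Module F M₁] [AddCommGroup M₂] [Module F M₂] {Q₁ : QuadraticForm F M₁}
    {Q₂ : QuadraticForm F M₂} (f : (F × M₁) ≃ₗ[F] (F × M₂))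
    (hf : ∀ p, ext b Q₂ (f p) = ext b Q₁ p) : Q₁.Equivalent Q₂ := by
  have hu : ext b Q₂ (f (1, 0)) = ext b Q₂ (1, 0) := by
    rw [hf, ext_apply, ext_apply]; simp
  have he : ext b Q₂ (1, 0) ≠ 0 := by
    rw [ext_apply]; simpa using hb
  obtain ⟨r, hr, hre⟩ := exists_refl h2 (ext b Q₂) hu he
  set g : (F × M₁) ≃ₗ[F] (F × M₂) := f.trans r with hg
  have hgi : ∀ p, ext b Q₂ (g p) = ext b Q₁ p := by
    intro p
    rw [hg, LinearEquiv.trans_apply, hr, hf]
  have hge : g (1, 0) = (1, 0) := by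
    rw [hg, LinearEquiv.trans_apply, hre]
  have hgi' : ∀ p, ext b Q₁ (g.symm p) = ext b Q₂ p := by
    intro p
    rw [← hgi, LinearEquiv.apply_symm_apply]
  have hge' : g.symm (1, 0) = (1, 0) := by
    rw [LinearEquiv.symm_apply_eq, hge]
  have h1 := fst_zero h2 hb g hgi hge
  have h1' := fst_zero h2 hb g.symm hgi' hge'
  have h3 : ∀ m, g (0, m) = (0, (g (0, m)).2) := fun m => Prod.ext (h1 m) rfl
  have h3' : ∀ m, g.symm (0, m) = (0, (g.symm (0, m)).2) := fun m => Prod.ext (h1' m) rfl
  let k : M₁ ≃ₗ[F] M₂ := LinearEquiv.ofLinearMap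
    ((LinearMap.snd F F M₂).comp ((g : (F × M₁) →ₗ[F] (F × M₂)).comp (LinearMap.inr F F M₁)))
    ((LinearMap.snd F F M₁).comp ((g.symm : (F × M₂) →ₗ[F] (F × M₁)).comp (LinearMap.inr F F M₂)))
    (by
      ext m
      show (g (0, (g.symm (0, m)).2)).2 = m
      rw [← h3', LinearEquiv.apply_symm_apply])
    (by
      ext m
      show (g.symm (0, (g (0, m)).2)).2 = m
      rw [← h3, LinearEquiv.symm_apply_apply])
  refine ⟨⟨k, fun m => ?_⟩⟩
  show Q₂ (g (0, m)).2 = Q₁ m
  have e1 := hgi (0, m)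
  rw [h3, ext_apply, ext_apply] at e1
  simpa using e1

end WittCancel

open WittCancel

theorem witt_cancel (h2 : (2 : F) ≠ 0) {a : Fˣ} {l l' : List Fˣ}
    (h : (diag (a :: l)).Equivalent (diag (a :: l'))) : (diag l).Equivalent (diag l') := by
  obtain ⟨f⟩ := h
  let E : ∀ l : List Fˣ, (F × (Fin l.length → F)) ≃ₗ[F] (Fin (a :: l).length → F) := fun l =>
    Fin.consLinearEquiv F (fun _ : Fin (l.length + 1) => F)
  have hE : ∀ (l : List Fˣ) (p : F × (Fin l.length → F)),
      diag (a :: l) (E l p) = ext (a : F) (diag l) p := by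
    intro l p
    rw [diag_cons_apply, ext_apply]
    rfl
  refine cancel h2 a.ne_zero (((E l).trans f.toLinearEquiv).trans (E l').symm) ?_
  intro p
  rw [← hE l', ← hE l]
  simp only [LinearEquiv.trans_apply, LinearEquiv.apply_symm_apply]
  exact f.map_app _

end Pool.Agent.WittR
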