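import Pool.Agent.Hhelper2.QStr

/-!
# Diagonal quadratic forms, Witt equivalence, Witt rings of quaternionic structures

Definitions for the Witt ring version of the elementary type conjecture.
-/

namespace Pool.Agent.WittR

open Pool.Agent.Hhelper2

universe u v w

/-! ### Diagonal forms over a field -/

section forms

variable {F : Type u} [Field F]

/-- The diagonal quadratic form `a₁ x₁² + ⋯ + aₙ xₙ²` on `Fⁿ`, all `aᵢ` nonzero. -/
def diag (l : List Fˣ) : QuadraticForm F (Fin l.length → F) :=
  QuadraticMap.weightedSumSquares F (fun i => ((l.get i : Fˣ) : F))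

/-- The orthogonal sum of the hyperbolic planes `⟨c, -c⟩`, for `c` in the list `hs`. -/
def hyp (hs : List Fˣ) : List Fˣ := hs.flatMap (fun c => [c, -c])

/-- Witt equivalence of two diagonal forms: they become isometric after adding hyperbolic
planes. -/
def WittEq (l l' : List Fˣ) : Prop :=
  ∃ hs hs' : List Fˣ, (diag (l ++ hyp hs)).Equivalent (diag (l' ++ hyp hs'))

/-- The tensor product of two diagonal forms: all products `aᵢ bⱼ`. -/
def mulL (l l' : List Fˣ) : List Fˣ := l.flatMap (fun a => l'.map (fun b => a * b))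

/-- The form `- q`. -/
def negL (l : List Fˣ) : List Fˣ := l.map (fun a => -a)

end forms

/-! ### Pairs `(R, e)` -/

section pairs

/-- The pairs `(R, e)` and `(R', e')` are isomorphic. -/
def PairIso {R : Type u} {R' : Type v} [CommRing R] [CommRing R'] (e : R →+* ZMod 2)
    (e' : R' →+* ZMod 2) : Prop :=
  ∃ f : R ≃+* R', ∀ x, e' (f x) = e x

/-- The ring homomorphism `e' : R[C₂] → ℤ/2`, `e' (a + b g) = e a + e b`. -/
noncomputable def extE {R : Type u} [CommRing R] (e : R →+* ZMod 2) :
    MonoidAlgebra R (Multiplicative (ZMod 2)) →+* ZMod 2 :=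
  MonoidAlgebra.liftNCRingHom e (1 : Multiplicative (ZMod 2) →* ZMod 2)
    (fun _ _ => Commute.all _ _)

/-- The fibre product `{(x, y) : e₁ x = e₂ y}`. -/
def fib {R₁ : Type u} {R₂ : Type v} [CommRing R₁] [CommRing R₂] (e₁ : R₁ →+* ZMod 2)
    (e₂ : R₂ →+* ZMod 2) : Subring (R₁ × R₂) :=
  (e₁.comp (RingHom.fst R₁ R₂)).eqLocus (e₂.comp (RingHom.snd R₁ R₂))

/-- The ring homomorphism `(x, y) ↦ e₁ x` on the fibre product. -/
def fibE {R₁ : Type u} {R₂ : Type v} [CommRing R₁] [CommRing R₂] (e₁ : R₁ →+* ZMod 2)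
    (e₂ : R₂ →+* ZMod 2) : fib e₁ e₂ →+* ZMod 2 :=
  (e₁.comp (RingHom.fst R₁ R₂)).comp (fib e₁ e₂).subtype

end pairs

/-! ### The Witt ring of a quaternionic structure -/

section WS

variable (S : QStr.{u})

/-- The binary forms `⟨a, b⟩` and `⟨c, d⟩` are isometric. -/
def Bin (a b c d : S.G) : Prop := a * b = c * d ∧ S.Split (S.neg * (a * b)) (a * c)

/-- The basis element of the group ring. -/
noncomputable abbrev gof (a : S.G) : MonoidAlgebra ℤ S.G := MonoidAlgebra.of ℤ S.G a

/-- The ideal generated by `1 + [-1]` and by `[a] + [b] - [c] - [d]` for isometric binary forms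
`⟨a, b⟩` and `⟨c, d⟩`. -/
noncomputable def JI : Ideal (MonoidAlgebra ℤ S.G) :=
  Ideal.span ({gof S 1 + gof S S.neg} ∪
    {x | ∃ a b c d, Bin S a b c d ∧ x = gof S a + gof S b - gof S c - gof S d})

/-- The (abstract) Witt ring of a quaternionic structure. -/
abbrev WS : Type u := MonoidAlgebra ℤ S.G ⧸ JI S

/-- The class of the one-dimensional form `⟨a⟩`. -/
noncomputable def cl : S.G →* WS S :=
  ((Ideal.Quotient.mk (JI S)).toMonoidHom).comp (MonoidAlgebra.of ℤ S.G)

/-- The part of the axioms of quaternionic structures which is used for Witt rings. -/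
structure LAx : Prop where
  sq : ∀ a : S.G, a * a = 1
  symm : ∀ a b, S.Split a b → S.Split b a
  one : ∀ a, S.Split a 1
  neg : ∀ a, S.Split a (S.neg * a)

variable {S}

theorem cl_add_neg : cl S 1 + cl S S.neg = 0 := by
  have h : Ideal.Quotient.mk (JI S) (gof S 1 + gof S S.neg) = 0 :=
    Ideal.Quotient.eq_zero_iff_mem.2 (Ideal.subset_span (Or.inl rfl))
  rw [map_add] at h
  exact h

theorem cl_bin {a b c d : S.G} (h : Bin S a b c d) : cl S a + cl S b = cl S c + cl S d := by
  have h1 : Ideal.Quotient.mk (JI S) (gof S a + gof S b - gof S c - gof S d) = 0 :=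
    Ideal.Quotient.eq_zero_iff_mem.2 (Ideal.subset_span (Or.inr ⟨a, b, c, d, h, rfl⟩))
  rw [map_sub, map_sub, map_add] at h1
  have h3 : cl S a + cl S b - cl S c - cl S d = 0 := h1
  linear_combination h3

/-- The universal property of the Witt ring. -/
noncomputable def WS.lift {R : Type v} [CommRing R] (f : S.G →* R) (h1 : f 1 + f S.neg = 0)
    (h2 : ∀ a b c d, Bin S a b c d → f a + f b = f c + f d) : WS S →+* R :=
  Ideal.Quotient.lift (JI S) ((MonoidAlgebra.lift ℤ R S.G f).toRingHom) (by
    have key : JI S ≤ RingHom.ker ((MonoidAlgebra.lift ℤ R S.G f).toRingHom) := by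
      rw [JI, Ideal.span_le]
      rintro x (rfl | ⟨a, b, c, d, h, rfl⟩)
      · show (MonoidAlgebra.lift ℤ R S.G f) (gof S 1 + gof S S.neg) = 0
        rw [map_add, MonoidAlgebra.lift_of, MonoidAlgebra.lift_of, h1]
      · show (MonoidAlgebra.lift ℤ R S.G f) (gof S a + gof S b - gof S c - gof S d) = 0
        rw [map_sub, map_sub, map_add, MonoidAlgebra.lift_of, MonoidAlgebra.lift_of,
          MonoidAlgebra.lift_of, MonoidAlgebra.lift_of, h2 a b c d h]
        ring
    intro x hx
    exact key hx)

theorem WS.lift_cl {R : Type v} [CommRing R] (f : S.G →* R) (h1 : f 1 + f S.neg = 0)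
    (h2 : ∀ a b c d, Bin S a b c d → f a + f b = f c + f d) (a : S.G) :
    WS.lift f h1 h2 (cl S a) = f a :=
  MonoidAlgebra.lift_of _ _

theorem WS.hom_ext {R : Type v} [CommRing R] {f g : WS S →+* R} (h : ∀ a, f (cl S a) = g (cl S a)) :
    f = g := by
  apply Ideal.Quotient.ringHom_ext
  have h3 : ∀ x : MonoidAlgebra ℤ S.G, (f.comp (Ideal.Quotient.mk (JI S))) x =
      (g.comp (Ideal.Quotient.mk (JI S))) x := by
    intro x
    induction x using MonoidAlgebra.induction_on with
    | of a => exact h a
    | add x y hx hy => rw [map_add, map_add, hx, hy]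
    | smul n x hx => rw [map_zsmul, map_zsmul, hx]
  exact RingHom.ext h3

/-- Every element of the Witt ring is an integral combination of classes. -/
theorem WS.induction {p : WS S → Prop} (h1 : ∀ a, p (cl S a)) (h2 : ∀ x y, p x → p y → p (x + y))
    (h3 : ∀ x, p x → p (-x)) (h0 : p 0) (x : WS S) : p x := by
  obtain ⟨x, rfl⟩ := Ideal.Quotient.mk_surjective x
  induction x using MonoidAlgebra.induction_on with
  | of a => exact h1 a
  | add x y hx hy => rw [map_add]; exact h2 _ _ hx hy
  | smul n x hx =>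
    rw [map_zsmul]
    have hn : ∀ k : ℕ, p ((k : ℤ) • Ideal.Quotient.mk (JI S) x) := by
      intro k
      induction k with
      | zero => simpa using h0
      | succ k ih =>
        push_cast
        rw [add_smul, one_smul]
        exact h2 _ _ ih hx
    rcases Int.eq_nat_or_neg n with ⟨k, rfl | rfl⟩
    · exact hn k
    · rw [neg_smul]
      exact h3 _ (hn k)

variable (S)

/-- The dimension modulo two on the Witt ring of a quaternionic structure. -/
noncomputable def eW : WS S →+* ZMod 2 :=
  WS.lift (1 : S.G →* ZMod 2) (by rw [MonoidHom.one_apply, MonoidHom.one_apply]; decide) (fun _ _ _ _ _ => rfl)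

variable {S}

@[simp] theorem eW_cl (a : S.G) : eW S (cl S a) = 1 := WS.lift_cl _ _ _ a

end WS

end Pool.Agent.WittR
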