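import Pool.Agent.WittR.Ring
import Pool.Agent.WittR.Chain
import Pool.Agent.Hhelper2.FieldAxioms

/-!
# The Witt ring of a field is the Witt ring of its quaternionic structure
-/

namespace Pool.Agent.WittR

open Pool.Agent.Hhelper2 Pool.Agent.Hhelper2.FieldAx

universe u

variable {F : Type u} [Field F]

/-! ### The dimension modulo two -/

theorem length_hyp (a : List Fˣ) : ((hyp a).length : ZMod 2) = 0 := by
  induction a with
  | nil => simp [hyp]
  | cons c a ih =>
    have h : hyp (c :: a) = c :: -c :: hyp a := rfl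
    rw [h, List.length_cons, List.length_cons]
    push_cast
    rw [ih, zero_add]
    decide

theorem length_mulL (l m : List Fˣ) : (mulL l m).length = l.length * m.length := by
  induction l with
  | nil => simp [mulL]
  | cons a l ih =>
    have h : mulL (a :: l) m = m.map (fun b => a * b) ++ mulL l m := rfl
    rw [h, List.length_append, ih, List.length_map, List.length_cons]
    ring

theorem length_wittEq {l l' : List Fˣ} (h : WittEq l l') :
    (l.length : ZMod 2) = (l'.length : ZMod 2) := by
  obtain ⟨a, b, h⟩ := h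
  have h1 := congrArg (Nat.cast : ℕ → ZMod 2) (length_eq h)
  rw [List.length_append, List.length_append] at h1
  push_cast at h1
  rwa [length_hyp, length_hyp, add_zero, add_zero] at h1

/-- The dimension modulo two, `W(F) → ℤ/2`. -/
def dimW (F : Type u) [Field F] : WittRing F →+* ZMod 2 where
  toFun := Quotient.lift (fun l : List Fˣ => (l.length : ZMod 2)) (fun _ _ h => length_wittEq h)
  map_one' := by
    show (([1] : List Fˣ).length : ZMod 2) = 1
    simp
  map_zero' := by
    show (([] : List Fˣ).length : ZMod 2) = 0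
    simp
  map_add' x y := by
    obtain ⟨x, rfl⟩ := WittRing.mk_surj x
    obtain ⟨y, rfl⟩ := WittRing.mk_surj y
    show ((x ++ y).length : ZMod 2) = (x.length : ZMod 2) + (y.length : ZMod 2)
    rw [List.length_append]
    push_cast
    rfl
  map_mul' x y := by
    obtain ⟨x, rfl⟩ := WittRing.mk_surj x
    obtain ⟨y, rfl⟩ := WittRing.mk_surj y
    show ((mulL x y).length : ZMod 2) = (x.length : ZMod 2) * (y.length : ZMod 2)
    rw [length_mulL]
    push_cast
    rfl

@[simp] theorem dimW_mk (l : List Fˣ) : dimW F (WittRing.mk l) = (l.length : ZMod 2) := rfl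

theorem WittRing.mk_cons (a : Fˣ) (l : List Fˣ) :
    (WittRing.mk (a :: l) : WittRing F) = WittRing.mk [a] + WittRing.mk l := rfl

/-! ### From the field to the structure -/

/-- The sum of the classes of the diagonal entries. -/
noncomputable def toWS (l : List Fˣ) : WS (QStr.ofField F) :=
  (l.map (fun a => cl (QStr.ofField F) (sqClass a))).sum

theorem toWS_cons (a : Fˣ) (l : List Fˣ) :
    toWS (a :: l) = cl (QStr.ofField F) (sqClass a) + toWS l := by
  simp [toWS]

theorem toWS_append (l m : List Fˣ) : toWS (l ++ m) = toWS l + toWS m := by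
  simp [toWS]

theorem toWS_map (c : Fˣ) (l : List Fˣ) :
    toWS (l.map (fun b => c * b)) = cl (QStr.ofField F) (sqClass c) * toWS l := by
  induction l with
  | nil => simp [toWS]
  | cons a l ih =>
    have h : cl (QStr.ofField F) (sqClass (c * a)) =
        cl (QStr.ofField F) (sqClass c) * cl (QStr.ofField F) (sqClass a) :=
      map_mul (cl (QStr.ofField F)) (sqClass c) (sqClass a)
    rw [List.map_cons, toWS_cons, toWS_cons, ih, h, mul_add]

theorem toWS_mulL (l m : List Fˣ) : toWS (mulL l m) = toWS l * toWS m := by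
  induction l with
  | nil => simp [toWS, mulL]
  | cons a l ih =>
    have h : mulL (a :: l) m = m.map (fun b => a * b) ++ mulL l m := rfl
    rw [h, toWS_append, toWS_map, ih, toWS_cons, add_mul]

theorem cl_neg_mul (c : Fˣ) : cl (QStr.ofField F) (sqClass c) +
    cl (QStr.ofField F) (sqClass (-c)) = 0 := by
  have h1 : cl (QStr.ofField F) (sqClass (-c)) =
      cl (QStr.ofField F) (sqClass c) * cl (QStr.ofField F) (QStr.ofField F).neg := by
    have h := map_mul (cl (QStr.ofField F)) (sqClass c) (sqClass (-1))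
    have h3 : (sqClass c * sqClass (-1) : SqClass F) = sqClass (-c) := by
      show sqClass (c * (-1)) = sqClass (-c)
      rw [mul_neg_one]
    exact (congrArg (cl (QStr.ofField F)) h3).symm.trans h
  have h3 : cl (QStr.ofField F) 1 + cl (QStr.ofField F) (QStr.ofField F).neg = 0 := cl_add_neg
  rw [map_one] at h3
  rw [h1]
  linear_combination (cl (QStr.ofField F) (sqClass c)) * h3

theorem toWS_hyp (a : List Fˣ) : toWS (hyp a) = 0 := by
  induction a with
  | nil => simp [hyp, toWS]
  | cons c a ih =>
    have h : hyp (c :: a) = c :: -c :: hyp a := rfl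
    rw [h, toWS_cons, toWS_cons, ih, add_zero, cl_neg_mul]

theorem cl_sq (a s : Fˣ) : cl (QStr.ofField F) (sqClass (a * s ^ 2)) =
    cl (QStr.ofField F) (sqClass a) := by
  congr 1
  exact (sqClass_eq.2 ⟨s, rfl⟩).symm

theorem bin_of (h2 : (2 : F) ≠ 0) {a b c : Fˣ} {x y : F} (h : (c : F) = a * x ^ 2 + b * y ^ 2) :
    Bin (QStr.ofField F) (sqClass a) (sqClass b) (sqClass c) (sqClass (a * b * c)) := by
  constructor
  · show sqClass (a * b) = sqClass (c * (a * b * c))
    exact sqClass_eq.2 ⟨c, Units.ext (by push_cast; ring)⟩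
  · show FieldSplit F (sqClass (-1 * (a * b))) (sqClass (a * c))
    rw [split_mk, solv_iff h2 (Units.ne_zero _) (Units.ne_zero _)]
    refine ⟨a * x, y, ?_⟩
    push_cast
    rw [h]
    ring

theorem toWS_equiv (h2 : (2 : F) ≠ 0) {l l' : List Fˣ} (h : (diag l).Equivalent (diag l')) :
    toWS l = toWS l' :=
  chain h2 (fun a => cl (QStr.ofField F) (sqClass a)) (fun a s => cl_sq a s)
    (fun _ _ _ _ _ h => cl_bin (bin_of h2 h)) l l' h

theorem toWS_wittEq (h2 : (2 : F) ≠ 0) {l l' : List Fˣ} (h : WittEq l l') : toWS l = toWS l' := by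
  obtain ⟨a, b, h⟩ := h
  have h1 := toWS_equiv h2 h
  rwa [toWS_append, toWS_append, toWS_hyp, toWS_hyp, add_zero, add_zero] at h1

/-- The homomorphism from the Witt ring of a field to the Witt ring of its structure. -/
noncomputable def homA (h2 : (2 : F) ≠ 0) : WittRing F →+* WS (QStr.ofField F) where
  toFun := Quotient.lift toWS (fun _ _ h => toWS_wittEq h2 h)
  map_one' := by
    show toWS [1] = 1
    rw [toWS_cons]
    have h : cl (QStr.ofField F) (sqClass 1) = 1 := map_one (cl (QStr.ofField F))
    rw [h]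
    simp [toWS]
  map_zero' := by
    show toWS [] = 0
    simp [toWS]
  map_add' x y := by
    obtain ⟨x, rfl⟩ := WittRing.mk_surj x
    obtain ⟨y, rfl⟩ := WittRing.mk_surj y
    exact toWS_append x y
  map_mul' x y := by
    obtain ⟨x, rfl⟩ := WittRing.mk_surj x
    obtain ⟨y, rfl⟩ := WittRing.mk_surj y
    exact toWS_mulL x y

theorem homA_mk (h2 : (2 : F) ≠ 0) (l : List Fˣ) : homA h2 (WittRing.mk l) = toWS l := rfl

/-! ### From the structure to the field -/

/-- The class of a one-dimensional form. -/
def unitHom (F : Type u) [Field F] : Fˣ →* WittRing F where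
  toFun a := WittRing.mk [a]
  map_one' := rfl
  map_mul' _ _ := rfl

theorem mk_sq (a s : Fˣ) : (WittRing.mk [a * s ^ 2] : WittRing F) = WittRing.mk [a] := by
  refine WittRing.mk_eq.2 (WittEq.symm ⟨[], [], ?_⟩)
  have e : ∀ m : List Fˣ, m ++ hyp [] = m := fun m => by simp [hyp]
  rw [e, e]
  exact equiv_sq a s []

/-- The class of the one-dimensional form `⟨a⟩`, for a square class `a`. -/
noncomputable def sqHom (F : Type u) [Field F] : SqClass F →* WittRing F :=
  QuotientGroup.lift (Subgroup.square Fˣ) (unitHom F) (by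
    intro x hx
    obtain ⟨s, hs⟩ := (Subgroup.mem_square).1 hx
    rw [MonoidHom.mem_ker]
    have h := mk_sq (1 : Fˣ) s
    rw [one_mul, sq, ← hs] at h
    exact h)

theorem sqHom_mk (a : Fˣ) : sqHom F (sqClass a) = WittRing.mk [a] := rfl

theorem mk_bin {a b c d : Fˣ} (h2 : (2 : F) ≠ 0)
    (h : Bin (QStr.ofField F) (sqClass a) (sqClass b) (sqClass c) (sqClass d)) :
    sqHom F (sqClass a) + sqHom F (sqClass b) = sqHom F (sqClass c) + sqHom F (sqClass d) := by
  obtain ⟨h1, h3⟩ := h
  have h1' : sqClass (a * b) = sqClass (c * d) := h1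
  have h3' : FieldSplit F (sqClass (-1 * (a * b))) (sqClass (a * c)) := h3
  rw [split_mk, solv_iff h2 (Units.ne_zero _) (Units.ne_zero _)] at h3'
  obtain ⟨p, q, hpq⟩ := h3'
  push_cast at hpq
  have ha : (a : F) ≠ 0 := a.ne_zero
  have hc : (c : F) = a * (p / a) ^ 2 + b * q ^ 2 := by
    field_simp
    linear_combination hpq
  have h4 : sqClass d = sqClass (a * b * c) := by
    have h5 : sqClass (a * b * c) = sqClass (a * b) * sqClass c := rfl
    have h6 : sqClass (c * d) * sqClass c = sqClass (c * d * c) := rfl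
    rw [h5, h1', h6]
    exact sqClass_eq.2 ⟨c, Units.ext (by push_cast; ring)⟩
  rw [h4, sqHom_mk, sqHom_mk, sqHom_mk, sqHom_mk]
  refine WittRing.mk_eq.2 ⟨[], [], ?_⟩
  have e : ∀ m : List Fˣ, m ++ hyp [] = m := fun m => by simp [hyp]
  rw [e, e]
  exact equiv_bin hc []

/-- The homomorphism from the Witt ring of the structure to the Witt ring of the field. -/
noncomputable def homB (h2 : (2 : F) ≠ 0) : WS (QStr.ofField F) →+* WittRing F :=
  WS.lift (S := QStr.ofField F) (sqHom F) (by
      have h : sqHom F (sqClass 1) + sqHom F (sqClass (-1)) = 0 := by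
        rw [sqHom_mk, sqHom_mk]
        exact WittRing.mk_eq.2 (WittEq.hyp_nil [1])
      exact h)
    (by
      intro a b c d h
      obtain ⟨a, rfl⟩ := exists_rep' a
      obtain ⟨b, rfl⟩ := exists_rep' b
      obtain ⟨c, rfl⟩ := exists_rep' c
      obtain ⟨d, rfl⟩ := exists_rep' d
      exact mk_bin h2 h)
where
  exists_rep' (a : SqClass F) : ∃ x : Fˣ, sqClass x = a := QuotientGroup.mk_surjective a

theorem homB_cl (h2 : (2 : F) ≠ 0) (a : Fˣ) :
    homB h2 (cl (QStr.ofField F) (sqClass a)) = WittRing.mk [a] := WS.lift_cl _ _ _ _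

theorem homB_toWS (h2 : (2 : F) ≠ 0) (l : List Fˣ) : homB h2 (toWS l) = WittRing.mk l := by
  induction l with
  | nil =>
    have h : toWS ([] : List Fˣ) = 0 := by simp [toWS]
    rw [h, map_zero]
    rfl
  | cons a l ih => rw [toWS_cons, map_add, ih, homB_cl, ← WittRing.mk_cons]

/-- The Witt ring of a field of characteristic not two is isomorphic to the Witt ring of its
quaternionic structure. -/
theorem fieldIso (h2 : (2 : F) ≠ 0) : PairIso (dimW F) (eW (QStr.ofField F)) := by
  have h1 : (homA h2).comp (homB h2) = RingHom.id _ := by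
    apply WS.hom_ext
    intro a
    obtain ⟨a, rfl⟩ := QuotientGroup.mk_surjective a
    have h : homB h2 (cl (QStr.ofField F) (sqClass a)) = WittRing.mk [a] := homB_cl h2 a
    show homA h2 (homB h2 (cl (QStr.ofField F) (sqClass a))) = cl (QStr.ofField F) (sqClass a)
    rw [h, homA_mk, toWS_cons]
    simp [toWS]
  have h3 : (homB h2).comp (homA h2) = RingHom.id _ := by
    ext x
    obtain ⟨x, rfl⟩ := WittRing.mk_surj x
    exact homB_toWS h2 x
  refine ⟨RingEquiv.ofRingHom (homA h2) (homB h2) h1 h3, ?_⟩
  intro x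
  obtain ⟨x, rfl⟩ := WittRing.mk_surj x
  show eW _ (toWS x) = dimW F (WittRing.mk x)
  rw [dimW_mk]
  induction x with
  | nil => simp [toWS]
  | cons a x ih =>
    rw [toWS_cons, map_add, ih, List.length_cons]
    have h : eW (QStr.ofField F) (cl (QStr.ofField F) (sqClass a)) = 1 := eW_cl _
    rw [h]
    push_cast
    ring

end Pool.Agent.WittR
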