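import Pool.Agent.WittR.Basic

/-!
# The Witt ring of a field
-/

namespace Pool.Agent.WittR

open Pool.Agent.Hhelper2

universe u

variable {F : Type u} [Field F]

/-! ### Formal sums -/

/-- The formal sum of a list. -/
noncomputable def cls (l : List Fˣ) : MonoidAlgebra ℤ Fˣ := (l.map (MonoidAlgebra.of ℤ Fˣ)).sum

@[simp] theorem cls_nil : cls ([] : List Fˣ) = 0 := rfl

@[simp] theorem cls_cons (a : Fˣ) (l : List Fˣ) :
    cls (a :: l) = MonoidAlgebra.of ℤ Fˣ a + cls l := by
  simp [cls]

@[simp] theorem cls_append (l m : List Fˣ) : cls (l ++ m) = cls l + cls m := by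
  simp [cls]

theorem cls_map_mul (c : Fˣ) (l : List Fˣ) :
    cls (l.map (fun b => c * b)) = MonoidAlgebra.of ℤ Fˣ c * cls l := by
  induction l with
  | nil => simp
  | cons a l ih =>
    rw [List.map_cons, cls_cons, cls_cons, ih, map_mul, mul_add]

@[simp] theorem cls_mulL (l m : List Fˣ) : cls (mulL l m) = cls l * cls m := by
  induction l with
  | nil => simp [mulL]
  | cons a l ih =>
    have h : mulL (a :: l) m = m.map (fun b => a * b) ++ mulL l m := rfl
    rw [h, cls_append, cls_map_mul, ih, cls_cons, add_mul]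

theorem negL_eq (l : List Fˣ) : negL l = l.map (fun b => (-1) * b) := by
  simp [negL]

@[simp] theorem cls_negL (l : List Fˣ) : cls (negL l) = MonoidAlgebra.of ℤ Fˣ (-1) * cls l := by
  rw [negL_eq, cls_map_mul]

theorem cls_apply [DecidableEq Fˣ] (l : List Fˣ) (a : Fˣ) : (cls l).coeff a = (l.count a : ℤ) := by
  induction l with
  | nil => rfl
  | cons b l ih =>
    rw [cls_cons, List.count_cons, MonoidAlgebra.coeff_add, Finsupp.add_apply, ih]
    have h3 : (MonoidAlgebra.of ℤ Fˣ b).coeff a = if b = a then (1 : ℤ) else 0 := by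
      show (MonoidAlgebra.single b (1 : ℤ)).coeff a = _
      rw [MonoidAlgebra.coeff_single]
      exact Finsupp.single_apply
    rw [h3]
    push_cast
    by_cases hb : b = a
    · simp [hb, add_comm]
    · simp [hb]

theorem perm_of_cls {l l' : List Fˣ} (h : cls l = cls l') : l.Perm l' := by
  classical
  rw [List.perm_iff_count]
  intro a
  have h1 := cls_apply l a
  rw [h, cls_apply l' a] at h1
  exact_mod_cast h1.symm

/-! ### Witt equivalence -/

theorem hyp_append (a b : List Fˣ) : hyp (a ++ b) = hyp a ++ hyp b := by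
  simp [hyp]

theorem cls_hyp (a : List Fˣ) :
    cls (hyp a) = (1 + MonoidAlgebra.of ℤ Fˣ (-1)) * cls a := by
  induction a with
  | nil => simp [hyp]
  | cons c a ih =>
    have h : hyp (c :: a) = c :: -c :: hyp a := rfl
    have h3 : MonoidAlgebra.of ℤ Fˣ (-c) = MonoidAlgebra.of ℤ Fˣ (-1) * MonoidAlgebra.of ℤ Fˣ c := by
      rw [← map_mul, neg_one_mul]
    rw [h, cls_cons, cls_cons, cls_cons, ih, h3]
    ring

theorem WittEq.of_perm {l l' : List Fˣ} (h : l.Perm l') : WittEq l l' := by
  refine ⟨[], [], ?_⟩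
  have e : ∀ m : List Fˣ, m ++ hyp [] = m := fun m => by simp [hyp]
  rw [e, e]
  exact equiv_perm h

theorem WittEq.of_cls {l l' : List Fˣ} (h : cls l = cls l') : WittEq l l' :=
  WittEq.of_perm (perm_of_cls h)

theorem WittEq.refl (l : List Fˣ) : WittEq l l := WittEq.of_perm (List.Perm.refl l)

theorem WittEq.symm {l l' : List Fˣ} (h : WittEq l l') : WittEq l' l := by
  obtain ⟨a, b, h⟩ := h
  exact ⟨b, a, h.symm⟩

/-- Lists with the same formal sums are isometric. -/
theorem equiv_of_cls {l l' : List Fˣ} (h : cls l = cls l') : (diag l).Equivalent (diag l') :=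
  equiv_perm (perm_of_cls h)

theorem WittEq.append {l l' m m' : List Fˣ} (h : WittEq l l') (h' : WittEq m m') :
    WittEq (l ++ m) (l' ++ m') := by
  obtain ⟨a, b, h⟩ := h
  obtain ⟨c, d, h'⟩ := h'
  refine ⟨a ++ c, b ++ d, ?_⟩
  have e : ∀ (l m a c : List Fˣ), (diag ((l ++ m) ++ hyp (a ++ c))).Equivalent
      (diag ((l ++ hyp a) ++ (m ++ hyp c))) := fun l m a c =>
    equiv_of_cls (by simp only [cls_append, hyp_append]; ring)
  exact (e l m a c).trans ((equiv_append h h').trans (e l' m' b d).symm)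

theorem WittEq.trans {l l' l'' : List Fˣ} (h : WittEq l l') (h' : WittEq l' l'') :
    WittEq l l'' := by
  obtain ⟨a, b, h⟩ := h
  obtain ⟨c, d, h'⟩ := h'
  refine ⟨a ++ c, d ++ b, ?_⟩
  have e1 : (diag (l ++ hyp (a ++ c))).Equivalent (diag ((l ++ hyp a) ++ hyp c)) :=
    equiv_of_cls (by simp only [cls_append, hyp_append]; ring)
  have e2 : (diag ((l ++ hyp a) ++ hyp c)).Equivalent (diag ((l' ++ hyp b) ++ hyp c)) :=
    equiv_append h (QuadraticMap.Equivalent.refl _)
  have e3 : (diag ((l' ++ hyp b) ++ hyp c)).Equivalent (diag ((l' ++ hyp c) ++ hyp b)) :=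
    equiv_of_cls (by simp only [cls_append]; ring)
  have e4 : (diag ((l' ++ hyp c) ++ hyp b)).Equivalent (diag ((l'' ++ hyp d) ++ hyp b)) :=
    equiv_append h' (QuadraticMap.Equivalent.refl _)
  have e5 : (diag ((l'' ++ hyp d) ++ hyp b)).Equivalent (diag (l'' ++ hyp (d ++ b))) :=
    equiv_of_cls (by simp only [cls_append, hyp_append]; ring)
  exact e1.trans (e2.trans (e3.trans (e4.trans e5)))

theorem WittEq.hyp_nil (a : List Fˣ) : WittEq (hyp a) [] :=
  ⟨[], a, by
    have e : (hyp a : List Fˣ) ++ hyp [] = [] ++ hyp a := by simp [hyp]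
    rw [e]⟩

theorem WittEq.scale (c : Fˣ) {l l' : List Fˣ} (h : WittEq l l') :
    WittEq (l.map (fun b => c * b)) (l'.map (fun b => c * b)) := by
  obtain ⟨a, b, h⟩ := h
  refine ⟨a.map (fun b => c * b), b.map (fun b => c * b), ?_⟩
  have e : ∀ l a : List Fˣ, (diag (l.map (fun b => c * b) ++ hyp (a.map (fun b => c * b)))).Equivalent
      (diag ((l ++ hyp a).map (fun b => c * b))) := fun l a =>
    equiv_of_cls (by simp only [cls_append, cls_hyp, cls_map_mul]; ring)
  exact (e l a).trans ((equiv_scale c h).trans (e l' b).symm)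

theorem WittEq.neg {l l' : List Fˣ} (h : WittEq l l') : WittEq (negL l) (negL l') := by
  rw [negL_eq, negL_eq]
  exact h.scale _

theorem WittEq.mul_right (l : List Fˣ) {m m' : List Fˣ} (h : WittEq m m') :
    WittEq (mulL l m) (mulL l m') := by
  induction l with
  | nil => exact WittEq.refl _
  | cons a l ih => exact (h.scale a).append ih

theorem WittEq.mul {l l' m m' : List Fˣ} (h : WittEq l l') (h' : WittEq m m') :
    WittEq (mulL l m) (mulL l' m') := by
  refine (WittEq.mul_right l h').trans ?_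
  refine (WittEq.of_cls (l' := mulL m' l) (by simp only [cls_mulL]; ring)).trans ?_
  refine (WittEq.mul_right m' h).trans ?_
  exact WittEq.of_cls (by simp only [cls_mulL]; ring)

/-! ### The Witt ring -/

/-- Witt equivalence is an equivalence relation. -/
def wittSetoid (F : Type u) [Field F] : Setoid (List Fˣ) where
  r := WittEq
  iseqv := ⟨WittEq.refl, WittEq.symm, WittEq.trans⟩

/-- The Witt ring `W(F)` of a field `F` of characteristic not two: the Witt equivalence classes of
nondegenerate (diagonal) quadratic forms; every nondegenerate quadratic form over `F` is isometric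
to a diagonal one. Addition is the orthogonal sum, multiplication the tensor product of forms. -/
def WittRing (F : Type u) [Field F] : Type u := Quotient (wittSetoid F)

namespace WittRing

/-- The Witt class of the diagonal form `⟨a₁, …, aₙ⟩`. -/
def mk (l : List Fˣ) : WittRing F := Quotient.mk (wittSetoid F) l

theorem mk_eq {l l' : List Fˣ} : (mk l : WittRing F) = mk l' ↔ WittEq l l' :=
  ⟨fun h => Quotient.exact h, fun h => Quotient.sound (s := wittSetoid F) h⟩

theorem mk_surj (x : WittRing F) : ∃ l, mk l = x := Quotient.exists_rep x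

instance : Zero (WittRing F) := ⟨mk []⟩

instance : One (WittRing F) := ⟨mk [1]⟩

instance : Add (WittRing F) :=
  ⟨Quotient.map₂ (· ++ ·) (fun _ _ h _ _ h' => WittEq.append h h')⟩

instance : Mul (WittRing F) :=
  ⟨Quotient.map₂ mulL (fun _ _ h _ _ h' => WittEq.mul h h')⟩

instance : Neg (WittRing F) := ⟨Quotient.map negL (fun _ _ h => WittEq.neg h)⟩

theorem mk_add (l m : List Fˣ) : (mk l + mk m : WittRing F) = mk (l ++ m) := rfl

theorem mk_mul (l m : List Fˣ) : (mk l * mk m : WittRing F) = mk (mulL l m) := rfl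

theorem mk_neg (l : List Fˣ) : (-mk l : WittRing F) = mk (negL l) := rfl

theorem mk_zero : (0 : WittRing F) = mk [] := rfl

theorem mk_one : (1 : WittRing F) = mk [1] := rfl

theorem mk_of_cls {l l' : List Fˣ} (h : cls l = cls l') : (mk l : WittRing F) = mk l' :=
  mk_eq.2 (WittEq.of_cls h)

theorem of_one : MonoidAlgebra.of ℤ Fˣ 1 = 1 := map_one _

instance : CommRing (WittRing F) where
  add_assoc x y z := by
    obtain ⟨x, rfl⟩ := mk_surj x
    obtain ⟨y, rfl⟩ := mk_surj y
    obtain ⟨z, rfl⟩ := mk_surj z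
    exact mk_of_cls (by simp only [cls_append]; ring)
  zero_add x := by
    obtain ⟨x, rfl⟩ := mk_surj x
    exact mk_of_cls (by simp only [cls_append, cls_nil]; ring)
  add_zero x := by
    obtain ⟨x, rfl⟩ := mk_surj x
    exact mk_of_cls (by simp only [cls_append, cls_nil]; ring)
  add_comm x y := by
    obtain ⟨x, rfl⟩ := mk_surj x
    obtain ⟨y, rfl⟩ := mk_surj y
    exact mk_of_cls (by simp only [cls_append]; ring)
  left_distrib x y z := by
    obtain ⟨x, rfl⟩ := mk_surj x
    obtain ⟨y, rfl⟩ := mk_surj y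
    obtain ⟨z, rfl⟩ := mk_surj z
    exact mk_of_cls (by simp only [cls_append, cls_mulL]; ring)
  right_distrib x y z := by
    obtain ⟨x, rfl⟩ := mk_surj x
    obtain ⟨y, rfl⟩ := mk_surj y
    obtain ⟨z, rfl⟩ := mk_surj z
    exact mk_of_cls (by simp only [cls_append, cls_mulL]; ring)
  zero_mul x := by
    obtain ⟨x, rfl⟩ := mk_surj x
    exact mk_of_cls (by simp only [cls_mulL, cls_nil]; ring)
  mul_zero x := by
    obtain ⟨x, rfl⟩ := mk_surj x
    exact mk_of_cls (by simp only [cls_mulL, cls_nil]; ring)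
  mul_assoc x y z := by
    obtain ⟨x, rfl⟩ := mk_surj x
    obtain ⟨y, rfl⟩ := mk_surj y
    obtain ⟨z, rfl⟩ := mk_surj z
    exact mk_of_cls (by simp only [cls_mulL]; ring)
  one_mul x := by
    obtain ⟨x, rfl⟩ := mk_surj x
    exact mk_of_cls (by simp only [cls_mulL, cls_cons, cls_nil, of_one]; ring)
  mul_one x := by
    obtain ⟨x, rfl⟩ := mk_surj x
    exact mk_of_cls (by simp only [cls_mulL, cls_cons, cls_nil, of_one]; ring)
  mul_comm x y := by
    obtain ⟨x, rfl⟩ := mk_surj x
    obtain ⟨y, rfl⟩ := mk_surj y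
    exact mk_of_cls (by simp only [cls_mulL]; ring)
  neg_add_cancel x := by
    obtain ⟨x, rfl⟩ := mk_surj x
    refine mk_eq.2 ((WittEq.of_cls (l' := hyp x) ?_).trans (WittEq.hyp_nil x))
    simp only [cls_append, cls_negL, cls_hyp]; ring
  nsmul := nsmulRec
  zsmul := zsmulRec

end WittRing

end Pool.Agent.WittR
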